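import Pool.Agent.Lib.Resolution_H15.Proj

set_option autoImplicit false

open AlgebraicGeometry CategoryTheory Polynomial DirectSum HomogeneousLocalization

namespace Pool.Agent.H15Res

variable {A : Type} [CommRing A] {κ : Type} (a : κ → A)

/-- The map from `A` to the chart ring. -/
noncomputable def chartHom (i : κ) : A →+* Away (grade (idl a)) (xT a i) :=
  (fromZeroRingHom (grade (idl a)) (Submonoid.powers (xT a i))).comp (toZero (idl a))

/-- The chart. -/
noncomputable def chart (i : κ) : Spec (CommRingCat.of (Away (grade (idl a)) (xT a i))) ⟶ Bl a :=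
  Proj.awayι (grade (idl a)) (xT a i) (bT_mem (idl a) (a i) (mem_idl a i)) one_pos

instance (i : κ) : IsOpenImmersion (chart a i) := by
  have h : IsOpenImmersion (Proj.awayι (grade (idl a)) (xT a i)
    (bT_mem (idl a) (a i) (mem_idl a i)) one_pos) := inferInstance
  exact h

lemma opensRange_chart (i : κ) :
    (chart a i).opensRange = Proj.basicOpen (grade (idl a)) (xT a i) :=
  Proj.opensRange_awayι _ _ _ _

lemma chart_comp (i : κ) :
    chart a i ≫ blMap a = Spec.map (CommRingCat.ofHom (chartHom a i)) := by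
  unfold chart blMap
  have h := Proj.awayι_toSpecZero (grade (idl a)) (xT a i)
    (bT_mem (idl a) (a i) (mem_idl a i)) one_pos
  have h2 : CommRingCat.ofHom (chartHom a i) = zeroHom a ≫
      CommRingCat.ofHom (fromZeroRingHom (grade (idl a)) (Submonoid.powers (xT a i))) := rfl
  rw [h2, Spec.map_comp, ← h]
  rfl

lemma mono_pow (c : A) (hc : c ∈ idl a) (n : ℕ) :
    (bT (idl a) c hc) ^ n = mono (idl a) n (c ^ n) (Ideal.pow_mem_pow hc n) := by
  apply Subtype.ext
  change (Polynomial.monomial 1 c) ^ n = Polynomial.monomial n (c ^ n)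
  rw [Polynomial.monomial_pow, one_mul]

lemma chartHom_mul_mk (i : κ) (n : ℕ) (x : reesAlgebra (idl a)) (hx : x ∈ grade (idl a) (n • 1)) :
    chartHom a i (a i ^ n) * Away.mk (grade (idl a)) (bT_mem (idl a) (a i) (mem_idl a i)) n x hx =
      chartHom a i ((x : A[X]).coeff n) := by
  apply HomogeneousLocalization.val_injective
  rw [HomogeneousLocalization.val_mul, Away.val_mk]
  change (Localization.mk _ _) * _ = Localization.mk _ _
  rw [Localization.mk_mul, Localization.mk_eq_mk_iff, Localization.r_iff_exists]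
  refine ⟨1, ?_⟩
  have hx' := monomial_coeff_of_mem_grade (idl a) hx
  apply Subtype.ext
  simp only [OneMemClass.coe_one, one_mul, Submonoid.coe_mul]
  change 1 * (Polynomial.monomial 0 (a i ^ n) * (x : A[X])) =
    (1 * (Polynomial.monomial 1 (a i)) ^ n) * Polynomial.monomial 0 ((x : A[X]).coeff n)
  have hn : n • 1 = n := by simp
  rw [hn] at hx'
  conv_lhs => rw [← hx']
  rw [Polynomial.monomial_pow, Polynomial.monomial_mul_monomial,
    one_mul, one_mul, Polynomial.monomial_mul_monomial]
  simp

lemma chartHom_eq (i j : κ) :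
    chartHom a j (a i) = Away.isLocalizationElem (bT_mem (idl a) (a j) (mem_idl a j))
      (bT_mem (idl a) (a i) (mem_idl a i)) * chartHom a j (a j) := by
  have h := chartHom_mul_mk a j 1 (xT a i) (by simpa using bT_mem (idl a) (a i) (mem_idl a i))
  rw [pow_one] at h
  have h1 : ((xT a i : reesAlgebra (idl a)) : A[X]).coeff 1 = a i := bT_coeff _ _ _
  rw [h1] at h
  have h2 : Away.mk (grade (idl a)) (bT_mem (idl a) (a j) (mem_idl a j)) 1 (xT a i)
      (by simpa using bT_mem (idl a) (a i) (mem_idl a i)) =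
      Away.isLocalizationElem (bT_mem (idl a) (a j) (mem_idl a j))
      (bT_mem (idl a) (a i) (mem_idl a i)) := by
    apply HomogeneousLocalization.val_injective
    rw [Away.val_mk, Away.val_mk]
    congr 1
    rw [pow_one]
  rw [← h2, ← h]
  exact mul_comm (G := Away (grade (idl a)) (xT a j)) _ _

lemma preimage_le (i : κ) :
    (blMap a) ⁻¹ᵁ (PrimeSpectrum.basicOpen (a i)) ≤ Proj.basicOpen (grade (idl a)) (xT a i) := by
  intro x hx
  have htop : x ∈ (⊤ : (Proj (grade (idl a))).Opens) := trivial
  rw [← xT_cover a] at htop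
  obtain ⟨j, hj⟩ := TopologicalSpace.Opens.mem_iSup.mp htop
  rw [← opensRange_chart] at hj
  obtain ⟨y, rfl⟩ := hj
  have h1 : (chart a j ≫ blMap a) y ∈ PrimeSpectrum.basicOpen (a i) := hx
  rw [chart_comp] at h1
  have h2 : chartHom a j (a i) ∉ (y : PrimeSpectrum _).asIdeal := h1
  rw [chartHom_eq] at h2
  have h3 : y ∈ (chart a j) ⁻¹ᵁ Proj.basicOpen (grade (idl a)) (xT a i) := by
    have h4 := Proj.awayι_preimage_basicOpen (grade (idl a)) (f := xT a j)
      (f_deg := bT_mem (idl a) (a j) (mem_idl a j)) (hm := one_pos) (g := xT a i)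
      (g_deg := bT_mem (idl a) (a i) (mem_idl a i)) (hm' := one_pos)
    change y ∈ Proj.awayι (grade (idl a)) (xT a j) (bT_mem (idl a) (a j) (mem_idl a j)) one_pos
      ⁻¹ᵁ Proj.basicOpen (grade (idl a)) (xT a i)
    rw [h4]
    intro h5
    exact h2 (Ideal.mul_mem_right _ _ h5)
  exact h3

variable [IsDomain A]

lemma chartHom_injective (i : κ) (hi : a i ≠ 0) : Function.Injective (chartHom a i) := by
  rw [injective_iff_map_eq_zero]
  intro r hr
  have h1 := congrArg HomogeneousLocalization.val hr
  rw [HomogeneousLocalization.val_zero] at h1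
  change Localization.mk _ _ = _ at h1
  rw [Localization.mk_eq_mk', IsLocalization.mk'_eq_zero_iff] at h1
  obtain ⟨⟨_, n, rfl⟩, h2⟩ := h1
  have h3 := congrArg (fun z : reesAlgebra (idl a) => (z : A[X])) h2
  change (Polynomial.monomial 1 (a i)) ^ n * Polynomial.monomial 0 r = 0 at h3
  rw [Polynomial.monomial_pow, Polynomial.monomial_mul_monomial, Polynomial.monomial_eq_zero_iff] at h3
  exact (mul_eq_zero.mp h3).resolve_left (pow_ne_zero _ hi)

lemma awayMap_bijective (i : κ) (hi : a i ≠ 0) :
    Function.Bijective (Localization.awayMap (chartHom a i) (a i)) := by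
  constructor
  · unfold Localization.awayMap IsLocalization.Away.map
    have : IsLocalization (Submonoid.map (chartHom a i) (Submonoid.powers (a i)))
        (Localization.Away (chartHom a i (a i))) := by
      rw [Submonoid.map_powers]
      infer_instance
    exact IsLocalization.map_injective_of_injective _ _ _ (chartHom_injective a i hi)
  · intro z
    obtain ⟨s, ⟨_, n, rfl⟩, rfl⟩ := IsLocalization.exists_mk'_eq
      (Submonoid.powers (chartHom a i (a i))) z
    obtain ⟨m, x, hx, rfl⟩ := Away.mk_surjective (grade (idl a))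
      (bT_mem (idl a) (a i) (mem_idl a i)) s
    refine ⟨IsLocalization.mk' _ ((x : A[X]).coeff m)
      (⟨a i ^ (m + n), ⟨m + n, rfl⟩⟩ : Submonoid.powers (a i)), ?_⟩
    unfold Localization.awayMap IsLocalization.Away.map
    rw [IsLocalization.map_mk', IsLocalization.mk'_eq_iff_eq]
    simp only [map_pow]
    rw [← chartHom_mul_mk a i m x hx]
    congr 1
    rw [pow_add, map_pow]
    ring


lemma isIso_chart_restrict (i : κ) (hi : a i ≠ 0) :
    IsIso (Spec.map (CommRingCat.ofHom (chartHom a i)) ∣_ (PrimeSpectrum.basicOpen (a i))) := by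
  have h1 : IsIso (Spec.map (CommRingCat.ofHom
      (Localization.awayMap (CommRingCat.ofHom (chartHom a i)).hom (a i)))) := by
    have : IsIso (CommRingCat.ofHom
      (Localization.awayMap (CommRingCat.ofHom (chartHom a i)).hom (a i))) := by
      apply (ConcreteCategory.isIso_iff_bijective _).mpr
      exact awayMap_bijective a i hi
    infer_instance
  exact ((MorphismProperty.isomorphisms Scheme).arrow_mk_iso_iff
    (SpecMapRestrictBasicOpenIso (CommRingCat.ofHom (chartHom a i)) (a i))).mpr h1

lemma isIso_restrict (i : κ) (hi : a i ≠ 0) :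
    IsIso (blMap a ∣_ (PrimeSpectrum.basicOpen (a i))) := by
  set U : (Spec (CommRingCat.of A)).Opens := PrimeSpectrum.basicOpen (a i) with hU
  have h1 : IsIso ((chart a i ≫ blMap a) ∣_ U) := by
    rw [chart_comp]
    exact isIso_chart_restrict a i hi
  rw [morphismRestrict_comp] at h1
  have h2 : IsIso (chart a i ∣_ (blMap a ⁻¹ᵁ U)) := by
    have h3 : IsOpenImmersion (chart a i ∣_ (blMap a ⁻¹ᵁ U)) := inferInstance
    have h4 : Function.Surjective (chart a i ∣_ (blMap a ⁻¹ᵁ U)) := by
      rintro ⟨y, hy⟩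
      have h5 := preimage_le a i hy
      rw [← opensRange_chart] at h5
      obtain ⟨z, hz⟩ := h5
      refine ⟨⟨z, by rw [← hz] at hy; exact hy⟩, ?_⟩
      apply Subtype.ext
      exact (morphismRestrict_base_coe _ _ _).trans hz
    have h6 : Epi (chart a i ∣_ (blMap a ⁻¹ᵁ U)).base := by
      rw [TopCat.epi_iff_surjective]
      exact h4
    exact IsOpenImmersion.isIso _
  have h7 : IsIso ((chart a i ∣_ (blMap a ⁻¹ᵁ U)) ≫ (blMap a ∣_ U)) := h1
  exact IsIso.of_isIso_comp_left (chart a i ∣_ (blMap a ⁻¹ᵁ U)) (blMap a ∣_ U)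

end Pool.Agent.H15Res
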