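import Pool.Agent.Lib.Resolution_H15.Rees

set_option autoImplicit false

open AlgebraicGeometry CategoryTheory Polynomial DirectSum HomogeneousLocalization

namespace Pool.Agent.H15Res

section Chart

variable {A : Type} [CommRing A] (I : Ideal A)

/-- The degree zero part is `A`. -/
noncomputable def toZero : A →+* grade I 0 where
  toFun a := ⟨mono I 0 a (by simp), mono_mem _ _ _ _⟩
  map_one' := by
    apply Subtype.ext; apply Subtype.ext
    simp [mono]
  map_zero' := by
    apply Subtype.ext; apply Subtype.ext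
    simp [mono]
  map_add' a b := by
    apply Subtype.ext; apply Subtype.ext
    simp [mono]
  map_mul' a b := by
    apply Subtype.ext; apply Subtype.ext
    change Polynomial.monomial 0 (a * b) = Polynomial.monomial 0 a * Polynomial.monomial 0 b
    rw [Polynomial.monomial_mul_monomial]

lemma toZero_bijective : Function.Bijective (toZero I) := by
  constructor
  · intro a b h
    have h1 : Polynomial.monomial 0 a = Polynomial.monomial 0 b :=
      congrArg (fun z : grade I 0 => ((z : reesAlgebra I) : A[X])) h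
    exact Polynomial.monomial_injective 0 h1
  · rintro ⟨x, a, ha⟩
    refine ⟨a, ?_⟩
    apply Subtype.ext; apply Subtype.ext
    exact ha

variable {B : Type} [CommRing B] [Algebra A B] {L : Type} [Field L] (φ : B →+* L)

variable (b : A) (hb : b ∈ I)

/-- evaluation of `T` at `b⁻¹`. -/
noncomputable def ev : reesAlgebra I →+* L :=
  (Polynomial.eval₂RingHom (φ.comp (algebraMap A B))
    ((φ (algebraMap A B b))⁻¹)).comp (reesAlgebra I).val.toRingHom

lemma ev_of_mem {n : ℕ} {x : reesAlgebra I} (hx : x ∈ grade I n) :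
    ev I φ b x = φ (algebraMap A B ((x : A[X]).coeff n)) *
      ((φ (algebraMap A B b))⁻¹) ^ n := by
  have h := monomial_coeff_of_mem_grade I hx
  change Polynomial.eval₂ _ _ (x : A[X]) = _
  conv_lhs => rw [← h]
  rw [Polynomial.eval₂_monomial]
  rfl

/-- The element `b T`. -/
noncomputable def bT : reesAlgebra I := mono I 1 b (by simpa using hb)

lemma bT_mem : bT I b hb ∈ grade I 1 := mono_mem _ _ _ _

lemma bT_coeff : ((bT I b hb : reesAlgebra I) : A[X]).coeff 1 = b := by
  simp [bT, mono]

include hb in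
lemma ev_bT (hb1 : φ (algebraMap A B b) ≠ 0) :
    ev I φ b (bT I b hb) = 1 := by
  rw [ev_of_mem I φ b (bT_mem I b hb), bT_coeff, pow_one, mul_inv_cancel₀ hb1]

lemma ev_isUnit (hb1 : φ (algebraMap A B b) ≠ 0) :
    IsUnit (ev I φ b (bT I b hb)) := by
  rw [ev_bT I φ b hb hb1]; exact isUnit_one

/-- The map from the homogeneous localization to the field `L`. -/
noncomputable def psi (hb1 : φ (algebraMap A B b) ≠ 0) :
    Away (grade I) (bT I b hb) →+* L :=
  (IsLocalization.Away.lift (S := Localization.Away (bT I b hb)) (bT I b hb)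
    (ev_isUnit I φ b hb hb1)).comp
    (algebraMap (Away (grade I) (bT I b hb)) (Localization.Away (bT I b hb)))

lemma psi_mk (hb1 : φ (algebraMap A B b) ≠ 0) (n : ℕ)
    (x : reesAlgebra I) (hx : x ∈ grade I (n • 1)) :
    psi I φ b hb hb1 (Away.mk (grade I) (bT_mem I b hb) n x hx) = ev I φ b x := by
  have hmem : (bT I b hb) ^ n ∈ Submonoid.powers (bT I b hb) := ⟨n, rfl⟩
  have h0 : psi I φ b hb hb1 (Away.mk (grade I) (bT_mem I b hb) n x hx) =
      IsLocalization.Away.lift (S := Localization.Away (bT I b hb)) (bT I b hb)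
        (ev_isUnit I φ b hb hb1)
        (Localization.mk x ⟨(bT I b hb) ^ n, hmem⟩) := rfl
  have h1 : (Localization.mk x ⟨(bT I b hb) ^ n, hmem⟩ : Localization.Away (bT I b hb)) *
      algebraMap _ _ ((bT I b hb) ^ n) = algebraMap _ _ x := by
    rw [Localization.mk_eq_mk']
    exact IsLocalization.mk'_spec _ x (⟨(bT I b hb) ^ n, hmem⟩ : Submonoid.powers (bT I b hb))
  have h2 := congrArg (IsLocalization.Away.lift (S := Localization.Away (bT I b hb)) (bT I b hb)
        (ev_isUnit I φ b hb hb1)) h1
  rw [map_mul, IsLocalization.Away.lift_eq, IsLocalization.Away.lift_eq, map_pow,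
    ev_bT I φ b hb hb1, one_pow, mul_one] at h2
  rw [h0, h2]

lemma psi_injective (hinj : Function.Injective (algebraMap A B)) (hφ : Function.Injective φ)
    (hb1 : φ (algebraMap A B b) ≠ 0) :
    Function.Injective (psi I φ b hb hb1) := by
  rw [injective_iff_map_eq_zero]
  intro z hz
  obtain ⟨n, x, hx, rfl⟩ := Away.mk_surjective (grade I) (bT_mem I b hb) z
  rw [psi_mk, ev_of_mem I φ b hx] at hz
  have h1 : φ (algebraMap A B ((x : A[X]).coeff (n • 1))) = 0 := by
    rcases mul_eq_zero.mp hz with h | h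
    · exact h
    · exact absurd h (pow_ne_zero _ (inv_ne_zero hb1))
  have h2 : (x : A[X]).coeff (n • 1) = 0 := by
    apply hinj
    apply hφ
    rw [h1, map_zero, map_zero]
  have h3 : x = 0 := by
    apply Subtype.ext
    rw [← monomial_coeff_of_mem_grade I hx, h2]
    simp
  subst h3
  apply HomogeneousLocalization.val_injective
  rw [Away.val_mk]
  simp [Localization.mk_zero]

variable {κ : Type} (a : κ → A)

lemma pow_le (c : κ → B) (hc : ∀ j, algebraMap A B (a j) = c j * algebraMap A B b) (n : ℕ)
    (x : A) (hx : x ∈ (Ideal.span (Set.range a)) ^ n) :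
    ∃ y : B, algebraMap A B x = y * (algebraMap A B b) ^ n := by
  have h1 : Ideal.map (algebraMap A B) (Ideal.span (Set.range a)) ≤
      Ideal.span {algebraMap A B b} := by
    rw [Ideal.map_span, Ideal.span_le]
    rintro _ ⟨_, ⟨j, rfl⟩, rfl⟩
    rw [hc j]
    exact Ideal.mul_mem_left _ _ (Ideal.mem_span_singleton_self _)
  have h2 : Ideal.map (algebraMap A B) ((Ideal.span (Set.range a)) ^ n) ≤
      Ideal.span {(algebraMap A B b) ^ n} := by
    rw [Ideal.map_pow, ← Ideal.span_singleton_pow]
    exact Ideal.pow_right_mono h1 n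
  have h3 := h2 (Ideal.mem_map_of_mem _ hx)
  rw [Ideal.mem_span_singleton'] at h3
  obtain ⟨y, hy⟩ := h3
  exact ⟨y, hy.symm⟩

end Chart

section Equiv

variable {A : Type} [CommRing A] {B : Type} [CommRing B] [Algebra A B]
  {κ : Type} (a : κ → A)

/-- The ideal generated by the family. -/
abbrev idl : Ideal A := Ideal.span (Set.range a)

lemma mem_idl (i : κ) : a i ∈ idl a := Ideal.subset_span ⟨i, rfl⟩

/-- The element `a_i T`. -/
noncomputable abbrev xT (i : κ) : reesAlgebra (idl a) := bT (idl a) (a i) (mem_idl a i)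

variable {L : Type} [Field L] (φ : B →+* L)
variable (i : κ) (hb1 : φ (algebraMap A B (a i)) ≠ 0)
  (c : κ → B) (hc : ∀ j, algebraMap A B (a j) = c j * algebraMap A B (a i))

include hc in
lemma psi_range_le (z) : ∃ y : B, φ y = psi (idl a) φ (a i) (mem_idl a i) hb1 z := by
  obtain ⟨n, x, hx, rfl⟩ := Away.mk_surjective (grade (idl a)) (bT_mem (idl a) (a i) (mem_idl a i)) z
  rw [psi_mk, ev_of_mem (idl a) φ (a i) hx]
  obtain ⟨y, hy⟩ := pow_le (a i) a c hc (n • 1) _ (coeff_mem (idl a) x (n • 1))
  refine ⟨y, ?_⟩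
  rw [hy, map_mul, map_pow, mul_assoc, ← mul_pow, mul_inv_cancel₀ hb1, one_pow, mul_one]

include hc in
lemma psi_range_ge (hgen : Algebra.adjoin A (Set.range c) = ⊤) (y : B) :
    ∃ z, psi (idl a) φ (a i) (mem_idl a i) hb1 z = φ y := by
  have hy : y ∈ Algebra.adjoin A (Set.range c) := by rw [hgen]; trivial
  induction hy using Algebra.adjoin_induction with
  | mem y hy =>
    obtain ⟨j, rfl⟩ := hy
    refine ⟨Away.mk (grade (idl a)) (bT_mem (idl a) (a i) (mem_idl a i)) 1 (xT a j)
      (bT_mem (idl a) (a j) (mem_idl a j)), ?_⟩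
    rw [psi_mk, ev_of_mem (idl a) φ (a i) (bT_mem (idl a) (a j) (mem_idl a j)),
      bT_coeff, hc j, map_mul, pow_one, mul_assoc, mul_inv_cancel₀ hb1, mul_one]
  | algebraMap r =>
    refine ⟨Away.mk (grade (idl a)) (bT_mem (idl a) (a i) (mem_idl a i)) 0
      (mono (idl a) 0 r (by simp)) (by simpa using mono_mem (idl a) 0 r (by simp)), ?_⟩
    rw [psi_mk, ev_of_mem (idl a) φ (a i) (mono_mem (idl a) 0 r (by simp))]
    simp [mono]
  | add x y _ _ hx hy =>
    obtain ⟨z, hz⟩ := hx
    obtain ⟨w, hw⟩ := hy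
    exact ⟨z + w, by rw [map_add, map_add, hz, hw]⟩
  | mul x y _ _ hx hy =>
    obtain ⟨z, hz⟩ := hx
    obtain ⟨w, hw⟩ := hy
    exact ⟨z * w, by rw [map_mul, map_mul, hz, hw]⟩

end Equiv

/-- The chart ring is the homogeneous localization. -/
lemma exists_equiv {A : Type} [CommRing A] {B : Type} [CommRing B] [IsDomain B] [Algebra A B]
    {κ : Type} (a : κ → A) (i : κ) (hinj : Function.Injective (algebraMap A B)) (hb0 : a i ≠ 0)
    (c : κ → B) (hc : ∀ j, algebraMap A B (a j) = c j * algebraMap A B (a i))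
    (hgen : Algebra.adjoin A (Set.range c) = ⊤) :
    ∃ e : B →+* Away (grade (idl a)) (xT a i), Function.Bijective e ∧
      ∀ r : A, e (algebraMap A B r) = fromZeroRingHom (grade (idl a)) _ (toZero (idl a) r) := by
  let φ : B →+* FractionRing B := algebraMap B (FractionRing B)
  have hιinj : Function.Injective φ := IsFractionRing.injective B (FractionRing B)
  have hb1 : φ (algebraMap A B (a i)) ≠ 0 := by
    intro h
    apply hb0
    apply hinj
    apply hιinj
    rw [h, map_zero, map_zero]
  let ψ := psi (idl a) φ (a i) (mem_idl a i) hb1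
  have hψ : Function.Injective ψ := psi_injective _ _ _ _ hinj hιinj _
  have hex : ∀ y : B, ∃ z, ψ z = φ y := fun y => psi_range_ge a φ i hb1 c hc hgen y
  choose g hg using hex
  let e0 : B →+* Away (grade (idl a)) (xT a i) :=
    { toFun := g
      map_one' := hψ (by rw [hg, map_one, map_one])
      map_zero' := hψ (by rw [hg, map_zero, map_zero])
      map_add' := fun x y => hψ (by rw [hg, map_add, map_add, hg, hg])
      map_mul' := fun x y => hψ (by rw [hg, map_mul, map_mul, hg, hg]) }
  have hbij : Function.Bijective e0 := by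
    constructor
    · intro x y hxy
      apply hιinj
      rw [← hg x, ← hg y]
      exact congrArg ψ hxy
    · intro z
      obtain ⟨y, hy⟩ := psi_range_le a φ i hb1 c hc z
      refine ⟨y, hψ ?_⟩
      change ψ (g y) = ψ z
      rw [hg y]
      exact hy
  refine ⟨e0, hbij, fun r => hψ ?_⟩
  change ψ (g _) = _
  rw [hg]
  have h0 : fromZeroRingHom (grade (idl a)) (Submonoid.powers (xT a i)) (toZero (idl a) r) =
      Away.mk (grade (idl a)) (bT_mem (idl a) (a i) (mem_idl a i)) 0
      (mono (idl a) 0 r (by simp)) (by simpa using mono_mem (idl a) 0 r (by simp)) := by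
    apply HomogeneousLocalization.val_injective
    rw [Away.val_mk]
    change Localization.mk _ _ = _
    congr 1
  rw [h0]
  change _ = psi (idl a) φ (a i) (mem_idl a i) hb1 _
  rw [psi_mk, ev_of_mem (idl a) φ (a i) (mono_mem (idl a) 0 r (by simp))]
  simp [mono]

end Pool.Agent.H15Res
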