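import Pool.Agent.Lib.Resolution_H15.Chart

set_option autoImplicit false

open AlgebraicGeometry CategoryTheory Polynomial DirectSum HomogeneousLocalization

namespace Pool.Agent.H15Res

variable {A : Type} [CommRing A] {κ : Type} (a : κ → A)

/-- The blow-up scheme. -/
noncomputable def Bl : Scheme.{0} := Proj (grade (idl a))

/-- The map `A → 𝒜₀` as a morphism of commutative rings. -/
noncomputable def zeroHom : CommRingCat.of A ⟶ CommRingCat.of (grade (idl a) 0) :=
  CommRingCat.ofHom (R := A) (S := grade (idl a) 0) (toZero (idl a))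

/-- The structure morphism of the blow-up. -/
noncomputable def blMap : Bl a ⟶ Spec (CommRingCat.of A) :=
  Proj.toSpecZero (grade (idl a)) ≫ Spec.map (zeroHom a)

instance : IsIso (zeroHom a) := by
  apply (ConcreteCategory.isIso_iff_bijective _).mpr
  exact toZero_bijective (idl a)

lemma finiteType_zero [Finite κ] : Algebra.FiniteType (grade (idl a) 0) (reesAlgebra (idl a)) := by
  have h1 : (reesAlgebra (idl a)).FG := reesAlgebra.fg ((Submodule.fg_def).mpr
    ⟨Set.range a, Set.finite_range a, rfl⟩)
  obtain ⟨s, hs⟩ := (reesAlgebra (idl a)).fg_top.mpr h1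
  refine ⟨⟨s, ?_⟩⟩
  rw [eq_top_iff]
  rintro x -
  have hx : x ∈ Algebra.adjoin A (s : Set (reesAlgebra (idl a))) := by rw [hs]; trivial
  induction hx using Algebra.adjoin_induction with
  | mem y hy => exact Algebra.subset_adjoin hy
  | algebraMap r =>
    exact Subalgebra.algebraMap_mem (Algebra.adjoin (grade (idl a) 0) _) (toZero (idl a) r)
  | add x y _ _ hx hy => exact add_mem hx hy
  | mul x y _ _ hx hy => exact mul_mem hx hy

instance [Finite κ] : IsProper (blMap a) := by
  have := finiteType_zero a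
  have h1 : IsProper (Proj.toSpecZero (grade (idl a))) := inferInstance
  have h2 : IsProper (Spec.map (zeroHom a)) := inferInstance
  exact MorphismProperty.comp_mem (W := @IsProper) _ _ h1 h2

lemma xT_cover : ⨆ j, Proj.basicOpen (grade (idl a)) (xT a j) = ⊤ := by
  apply Proj.iSup_basicOpen_eq_top' (grade (idl a)) (xT a)
    (fun i => ⟨1, bT_mem (idl a) (a i) (mem_idl a i)⟩)
  rw [eq_top_iff]
  rintro x -
  have h0 : ∀ r : A, r ∈ idl a → ∃ z : reesAlgebra (idl a), (z : A[X]) = Polynomial.monomial 1 r ∧
      z ∈ Algebra.adjoin (grade (idl a) 0) (Set.range (xT a)) := by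
    intro r hr
    induction hr using Submodule.span_induction with
    | mem r hr1 =>
      obtain ⟨j, rfl⟩ := hr1
      exact ⟨xT a j, by simp [xT, bT, mono], Algebra.subset_adjoin ⟨j, rfl⟩⟩
    | zero => exact ⟨0, by simp, zero_mem _⟩
    | add r s _ _ hr hs =>
      obtain ⟨z, hz, hz'⟩ := hr
      obtain ⟨w, hw, hw'⟩ := hs
      exact ⟨z + w, by simp [hz, hw], add_mem hz' hw'⟩
    | smul s r _ hr =>
      obtain ⟨z, hz, hz'⟩ := hr
      refine ⟨(toZero (idl a) s : reesAlgebra (idl a)) * z, ?_, ?_⟩
      · change Polynomial.monomial 0 s * (z : A[X]) = _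
        rw [hz, Polynomial.monomial_mul_monomial]
        simp
      · have := Subalgebra.algebraMap_mem (Algebra.adjoin (grade (idl a) 0) (Set.range (xT a)))
          (toZero (idl a) s)
        exact mul_mem this hz'
  have h1 : ∀ y : A[X], y ∈ reesAlgebra (idl a) → ∃ z : reesAlgebra (idl a), (z : A[X]) = y ∧
      z ∈ Algebra.adjoin (grade (idl a) 0) (Set.range (xT a)) := by
    intro y hy
    rw [← adjoin_monomial_eq_reesAlgebra] at hy
    induction hy using Algebra.adjoin_induction with
    | mem y hy =>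
      obtain ⟨r, hr, rfl⟩ := hy
      exact h0 r hr
    | algebraMap r =>
      refine ⟨(toZero (idl a) r : reesAlgebra (idl a)), rfl, ?_⟩
      exact Subalgebra.algebraMap_mem (Algebra.adjoin (grade (idl a) 0) (Set.range (xT a)))
            (toZero (idl a) r)
    | add y z _ _ hy hz =>
      obtain ⟨u, hu, hu'⟩ := hy
      obtain ⟨w, hw, hw'⟩ := hz
      exact ⟨u + w, by simp [hu, hw], add_mem hu' hw'⟩
    | mul y z _ _ hy hz =>
      obtain ⟨u, hu, hu'⟩ := hy
      obtain ⟨w, hw, hw'⟩ := hz
      exact ⟨u * w, by simp [hu, hw], mul_mem hu' hw'⟩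
  obtain ⟨z, hz, hz'⟩ := h1 x x.2
  have : z = x := Subtype.ext hz
  rw [← this]
  exact hz'


/-- points of the blow-up over `D(a_i)` lie in `D₊(a_i T)`. -/
lemma mem_of_notMem (i : κ) (x : Bl a) (hx : toZero (idl a) (a i) ∉
    (x : ProjectiveSpectrum (grade (idl a))).asHomogeneousIdeal.toIdeal.comap
      (algebraMap (grade (idl a) 0) (reesAlgebra (idl a)))) :
    x ∈ Proj.basicOpen (grade (idl a)) (xT a i) := by
  by_contra hcon
  have hcon' : xT a i ∈ (x : ProjectiveSpectrum (grade (idl a))).asHomogeneousIdeal := by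
    by_contra h
    exact hcon h
  have htop : x ∈ (⊤ : (Proj (grade (idl a))).Opens) := trivial
  rw [← xT_cover a] at htop
  obtain ⟨j, hj⟩ := TopologicalSpace.Opens.mem_iSup.mp htop
  have h1 : (toZero (idl a) (a i) : reesAlgebra (idl a)) * xT a j =
      (toZero (idl a) (a j) : reesAlgebra (idl a)) * xT a i := by
    apply Subtype.ext
    change Polynomial.monomial 0 (a i) * Polynomial.monomial 1 (a j) =
      Polynomial.monomial 0 (a j) * Polynomial.monomial 1 (a i)
    rw [Polynomial.monomial_mul_monomial, Polynomial.monomial_mul_monomial, mul_comm]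
  have h2 : (toZero (idl a) (a i) : reesAlgebra (idl a)) * xT a j ∈
      (x : ProjectiveSpectrum (grade (idl a))).asHomogeneousIdeal.toIdeal := by
    rw [h1]
    exact Ideal.mul_mem_left _ _ hcon'
  rcases (x : ProjectiveSpectrum (grade (idl a))).isPrime.mem_or_mem h2 with h | h
  · exact hx h
  · exact hj h

end Pool.Agent.H15Res
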