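import Mathlib

set_option autoImplicit false

open AlgebraicGeometry CategoryTheory Polynomial DirectSum

namespace Pool.Agent.H15Res

section Rees

variable {A : Type} [CommRing A] (I : Ideal A)

/-- The degree `n` part of the Rees algebra. -/
noncomputable def grade (n : ℕ) : Submodule A (reesAlgebra I) :=
  Submodule.comap (reesAlgebra I).val.toLinearMap
    (LinearMap.range (Polynomial.monomial n : A →ₗ[A] A[X]))

lemma mem_grade {n : ℕ} {x : reesAlgebra I} :
    x ∈ grade I n ↔ ∃ a : A, Polynomial.monomial n a = (x : A[X]) := Iff.rfl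

lemma coeff_of_mem_grade {n : ℕ} {x : reesAlgebra I} (hx : x ∈ grade I n) (m : ℕ) :
    (x : A[X]).coeff m = if n = m then (x : A[X]).coeff n else 0 := by
  obtain ⟨a, ha⟩ := hx
  change Polynomial.monomial n a = (x : A[X]) at ha
  rw [← ha, coeff_monomial, coeff_monomial]
  simp

lemma monomial_coeff_of_mem_grade {n : ℕ} {x : reesAlgebra I} (hx : x ∈ grade I n) :
    Polynomial.monomial n ((x : A[X]).coeff n) = (x : A[X]) := by
  obtain ⟨a, ha⟩ := hx
  change Polynomial.monomial n a = (x : A[X]) at ha
  rw [← ha, coeff_monomial, if_pos rfl]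

/-- The element `a T^n` of the Rees algebra. -/
noncomputable def mono (n : ℕ) (a : A) (ha : a ∈ I ^ n) : reesAlgebra I :=
  ⟨Polynomial.monomial n a, reesAlgebra.monomial_mem.mpr ha⟩

@[simp] lemma mono_coe (n : ℕ) (a : A) (ha : a ∈ I ^ n) :
    (mono I n a ha : A[X]) = Polynomial.monomial n a := rfl

lemma mono_mem (n : ℕ) (a : A) (ha : a ∈ I ^ n) : mono I n a ha ∈ grade I n := ⟨a, rfl⟩

lemma coeff_mem (x : reesAlgebra I) (n : ℕ) : (x : A[X]).coeff n ∈ I ^ n :=
  (mem_reesAlgebra_iff I _).mp x.2 n

/-- homogeneous component -/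
noncomputable def comp (x : reesAlgebra I) (n : ℕ) : grade I n :=
  ⟨mono I n ((x : A[X]).coeff n) (coeff_mem I x n), mono_mem _ _ _ _⟩

lemma comp_eq_zero (x : reesAlgebra I) (n : ℕ) (h : (x : A[X]).coeff n = 0) :
    comp I x n = 0 := by
  apply Subtype.ext
  apply Subtype.ext
  simp [comp, h]

open Classical in
/-- decomposition into homogeneous components -/
noncomputable def decomp (x : reesAlgebra I) : ⨁ n, grade I n :=
  DirectSum.mk (fun n => grade I n) (x : A[X]).support (fun n => comp I x n)

lemma decomp_apply (x : reesAlgebra I) (n : ℕ) : decomp I x n = comp I x n := by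
  classical
  by_cases h : n ∈ (x : A[X]).support
  · unfold decomp
    rw [DirectSum.mk_apply_of_mem h]
  · unfold decomp
    rw [DirectSum.mk_apply_of_notMem h, comp_eq_zero]
    simpa using h

lemma coeff_coe (d : ⨁ n, grade I n) (n : ℕ) :
    ((DirectSum.coeAddMonoidHom (grade I) d : reesAlgebra I) : A[X]).coeff n =
      ((d n : reesAlgebra I) : A[X]).coeff n := by
  classical
  induction d using DirectSum.induction_on with
  | zero => simp
  | of i x =>
    rw [DirectSum.coeAddMonoidHom_of, coeff_of_mem_grade I x.2 n]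
    by_cases h : i = n
    · subst h
      rw [if_pos rfl, DirectSum.of_eq_same]
    · rw [if_neg h, DirectSum.of_eq_of_ne _ _ _ (Ne.symm h)]
      simp
  | add x y hx hy =>
    rw [map_add, DirectSum.add_apply]
    simp [hx, hy]

noncomputable instance : DirectSum.Decomposition (grade I) where
  decompose' := decomp I
  left_inv := by
    intro x
    apply Subtype.ext
    ext n
    rw [coeff_coe, decomp_apply]
    simp [comp]
  right_inv := by
    intro d
    apply DFinsupp.ext
    intro n
    change decomp I _ n = d n
    rw [decomp_apply]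
    apply Subtype.ext
    apply Subtype.ext
    change Polynomial.monomial n _ = _
    rw [coeff_coe, monomial_coeff_of_mem_grade I (d n).2]

noncomputable instance : GradedRing (grade I) where
  one_mem := ⟨1, rfl⟩
  mul_mem := by
    rintro i j x y ⟨a, ha⟩ ⟨b, hb⟩
    refine ⟨a * b, ?_⟩
    change Polynomial.monomial i a = (x : A[X]) at ha
    change Polynomial.monomial j b = (y : A[X]) at hb
    change Polynomial.monomial (i + j) (a * b) = (x : A[X]) * (y : A[X])
    rw [← ha, ← hb, Polynomial.monomial_mul_monomial]

end Rees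

end Pool.Agent.H15Res
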