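import Pool.Agent.Lib.Resolution_H15.Birational

set_option autoImplicit false

open AlgebraicGeometry CategoryTheory Polynomial DirectSum HomogeneousLocalization

namespace Pool.Agent.H15Res

section Integral

variable {A : Type} [CommRing A] [IsDomain A] {κ : Type} (a : κ → A)

lemma rees_isDomain (I : Ideal A) : IsDomain (reesAlgebra I) := inferInstance

/-- The generic point. -/
noncomputable def genPt (i : κ) (hi : a i ≠ 0) : ProjectiveSpectrum (grade (idl a)) where
  asHomogeneousIdeal := ⊥
  isPrime := by
    have : (⊥ : HomogeneousIdeal (grade (idl a))).toIdeal = ⊥ := HomogeneousIdeal.toIdeal_bot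
    rw [this]
    exact Ideal.isPrime_bot
  not_irrelevant_le := by
    intro h
    have h1 : xT a i ∈ HomogeneousIdeal.irrelevant (grade (idl a)) := by
      rw [HomogeneousIdeal.mem_irrelevant_iff]
      exact DirectSum.decompose_of_mem_ne (grade (idl a)) (bT_mem (idl a) (a i) (mem_idl a i))
        one_ne_zero
    have h2 := h h1
    have h3 : xT a i ∈ (⊥ : HomogeneousIdeal (grade (idl a))).toIdeal := h2
    rw [HomogeneousIdeal.toIdeal_bot] at h3
    have h4 : ((xT a i : reesAlgebra (idl a)) : A[X]) = 0 := by
      rw [show xT a i = 0 from h3]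
      rfl
    change Polynomial.monomial 1 (a i) = 0 at h4
    rw [Polynomial.monomial_eq_zero_iff] at h4
    exact hi h4

lemma genPt_mem (i : κ) (hi : a i ≠ 0) (U : (Proj (grade (idl a))).Opens)
    (x : Proj (grade (idl a))) (hx : x ∈ U) : (genPt a i hi : Proj (grade (idl a))) ∈ U := by
  obtain ⟨_, ⟨f, rfl⟩, hxf, hfU⟩ := TopologicalSpace.Opens.isBasis_iff_nbhd.mp
    (Proj.isBasis_basicOpen (grade (idl a))) hx
  apply hfU
  have hxf' : f ∉ (x : ProjectiveSpectrum (grade (idl a))).asHomogeneousIdeal := hxf
  have goal' : f ∉ (genPt a i hi).asHomogeneousIdeal := by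
    intro h
    have h3 : f ∈ (⊥ : HomogeneousIdeal (grade (idl a))).toIdeal := h
    rw [HomogeneousIdeal.toIdeal_bot] at h3
    have h4 : f = 0 := h3
    rw [h4] at hxf'
    exact hxf' (zero_mem _)
  exact goal'

lemma irred (i : κ) (hi : a i ≠ 0) : IrreducibleSpace (Bl a) := by
  have hne : Nonempty (Bl a) := ⟨(genPt a i hi : Proj (grade (idl a)))⟩
  have hpre : PreirreducibleSpace (Bl a) := by
    refine ⟨?_⟩
    rintro u v hu hv ⟨x, -, hx⟩ ⟨y, -, hy⟩
    exact ⟨(genPt a i hi : Proj (grade (idl a))), trivial,
      genPt_mem a i hi ⟨u, hu⟩ x hx, genPt_mem a i hi ⟨v, hv⟩ y hy⟩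
  exact ⟨hne⟩

instance : AlgebraicGeometry.IsReduced (Bl a) := by
  have h : ∀ x : Bl a, _root_.IsReduced ((Bl a).presheaf.stalk x) := by
    intro x
    have hprime := (x : ProjectiveSpectrum (grade (idl a))).isPrime
    let e := Proj.stalkIso (grade (idl a)) x
    have h1 : _root_.IsReduced (HomogeneousLocalization.AtPrime (grade (idl a))
        (x : ProjectiveSpectrum (grade (idl a))).asHomogeneousIdeal.toIdeal) := by
      have h2 : _root_.IsReduced (Localization
        (x : ProjectiveSpectrum (grade (idl a))).asHomogeneousIdeal.toIdeal.primeCompl) := by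
        infer_instance
      exact isReduced_of_injective (algebraMap (HomogeneousLocalization.AtPrime (grade (idl a))
        (x : ProjectiveSpectrum (grade (idl a))).asHomogeneousIdeal.toIdeal) (Localization
        (x : ProjectiveSpectrum (grade (idl a))).asHomogeneousIdeal.toIdeal.primeCompl))
        (fun y z h => HomogeneousLocalization.val_injective _ (by
          rwa [HomogeneousLocalization.algebraMap_apply,
            HomogeneousLocalization.algebraMap_apply] at h))
    have h3 : Function.Injective e.hom.hom :=
      (ConcreteCategory.bijective_of_isIso e.hom).1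
    exact isReduced_of_injective e.hom.hom h3
  exact isReduced_of_isReduced_stalk _

lemma isIntegral_bl (i : κ) (hi : a i ≠ 0) : AlgebraicGeometry.IsIntegral (Bl a) := by
  have := irred a i hi
  exact isIntegral_of_irreducibleSpace_of_isReduced _

end Integral

section Tool

instance : IsZariskiLocalAtSource @AlgebraicGeometry.Smooth.{0} :=
  AlgebraicGeometry.HasRingHomProperty.instIsZariskiLocalAtSource (Q := RingHom.Smooth)

/-- **Chart criterion.** Let `A` be a domain over a field `k` and `(a_j)` a finite family in `A`.
Suppose that the affine charts `A[a_j / a_i]` of the blow-up (`i` in a set `σ` of pivots such that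
every `a_j` is integral over the ideal of pivots in the sense of `hrad`) are smooth over `k`.
Then `Spec A` has a resolution of singularities. -/
theorem resolution_of_charts {k A : Type} [Field k] [CommRing A] [IsDomain A] [Algebra k A]
    {κ : Type} [Finite κ] (a : κ → A) (σ : Set κ) (i₀ : κ) (ha : a i₀ ≠ 0)
    (hrad : ∀ j, ∃ N, 0 < N ∧
      a j ^ N ∈ Ideal.span (a '' σ) * (Ideal.span (Set.range a)) ^ (N - 1))
    (charts : ∀ i ∈ σ, a i ≠ 0 → ∃ (B : Type) (_ : CommRing B) (_ : IsDomain B) (_ : Algebra A B)
      (_ : Algebra k B) (_ : IsScalarTower k A B), Function.Injective (algebraMap A B) ∧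
      Algebra.Smooth k B ∧
      ∃ c : κ → B, (∀ j, algebraMap A B (a j) = c j * algebraMap A B (a i)) ∧
        Algebra.adjoin A (Set.range c) = ⊤) :
    ∃ (Y : Scheme.{0}) (π : Y ⟶ Spec (CommRingCat.of A)),
        AlgebraicGeometry.IsIntegral Y ∧ AlgebraicGeometry.IsProper π ∧
        AlgebraicGeometry.Smooth (π ≫ Spec.map (CommRingCat.ofHom (algebraMap k A))) ∧
        ∃ U : (Spec (CommRingCat.of A)).Opens, Dense (U : Set (Spec (CommRingCat.of A))) ∧
          IsIso (π ∣_ U) := by
  refine ⟨Bl a, blMap a, isIntegral_bl a i₀ ha, inferInstance, ?_,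
    PrimeSpectrum.basicOpen (a i₀), ?_, isIso_restrict a i₀ ha⟩
  · have hcov : ⨆ i : {i : κ // i ∈ σ ∧ a i ≠ 0},
        Proj.basicOpen (grade (idl a)) (xT a i.1) = ⊤ := by
      rw [eq_top_iff]
      rintro x -
      have htop : x ∈ (⊤ : (Proj (grade (idl a))).Opens) := trivial
      rw [← xT_cover a] at htop
      obtain ⟨j, hj⟩ := TopologicalSpace.Opens.mem_iSup.mp htop
      rw [TopologicalSpace.Opens.mem_iSup]
      by_contra hcon
      push Not at hcon
      have h1 : ∀ i ∈ σ, xT a i ∈
          (x : ProjectiveSpectrum (grade (idl a))).asHomogeneousIdeal.toIdeal := by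
        intro i hi
        by_cases h0 : a i = 0
        · have : xT a i = 0 := by
            apply Subtype.ext
            change Polynomial.monomial 1 (a i) = 0
            rw [h0, map_zero]
          rw [this]
          exact zero_mem _
        · by_contra h2
          exact hcon ⟨i, hi, h0⟩ h2
      obtain ⟨N, hN, hmem⟩ := hrad j
      have h2 : ∀ n (s t : A), (hs : s ∈ Ideal.span (a '' σ)) →
          (ht : t ∈ (Ideal.span (Set.range a)) ^ n) → (hst : s * t ∈ (idl a) ^ (n + 1)) →
          mono (idl a) (n + 1) (s * t) hst ∈
          (x : ProjectiveSpectrum (grade (idl a))).asHomogeneousIdeal.toIdeal := by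
        intro n s t hs ht hst
        have h3 : ∀ s ∈ Ideal.span (a '' σ), ∃ hs' : s ∈ idl a, bT (idl a) s hs' ∈
            (x : ProjectiveSpectrum (grade (idl a))).asHomogeneousIdeal.toIdeal := by
          intro s hs
          induction hs using Submodule.span_induction with
          | mem s hs =>
            obtain ⟨i, hi, rfl⟩ := hs
            exact ⟨mem_idl a i, h1 i hi⟩
          | zero =>
            refine ⟨zero_mem _, ?_⟩
            have : bT (idl a) 0 (zero_mem _) = 0 := by
              apply Subtype.ext
              change Polynomial.monomial 1 0 = 0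
              rw [map_zero]
            rw [this]
            exact zero_mem _
          | add s t _ _ hs ht =>
            obtain ⟨hs', hs⟩ := hs
            obtain ⟨ht', ht⟩ := ht
            refine ⟨add_mem hs' ht', ?_⟩
            have : bT (idl a) (s + t) (add_mem hs' ht') = bT (idl a) s hs' + bT (idl a) t ht' := by
              apply Subtype.ext
              change Polynomial.monomial 1 (s + t) = Polynomial.monomial 1 s + Polynomial.monomial 1 t
              rw [map_add]
            rw [this]
            exact add_mem hs ht
          | smul r s _ hs =>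
            obtain ⟨hs', hs⟩ := hs
            refine ⟨Ideal.mul_mem_left _ _ hs', ?_⟩
            have : bT (idl a) (r • s) (Ideal.mul_mem_left _ _ hs') =
                (toZero (idl a) r : reesAlgebra (idl a)) * bT (idl a) s hs' := by
              apply Subtype.ext
              change Polynomial.monomial 1 (r * s) = Polynomial.monomial 0 r * Polynomial.monomial 1 s
              rw [Polynomial.monomial_mul_monomial, zero_add]
            rw [this]
            exact Ideal.mul_mem_left _ _ hs
        obtain ⟨hs', h4⟩ := h3 s hs
        have h5 : mono (idl a) (n + 1) (s * t) hst =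
            bT (idl a) s hs' * mono (idl a) n t ht := by
          apply Subtype.ext
          change Polynomial.monomial (n + 1) (s * t) =
            Polynomial.monomial 1 s * Polynomial.monomial n t
          rw [Polynomial.monomial_mul_monomial, add_comm 1 n]
        rw [h5]
        exact Ideal.mul_mem_right _ _ h4
      have h6 : ∀ n (r : A), (hr : r ∈ Ideal.span (a '' σ) * (Ideal.span (Set.range a)) ^ n) →
          ∃ hr' : r ∈ (idl a) ^ (n + 1), mono (idl a) (n + 1) r hr' ∈
          (x : ProjectiveSpectrum (grade (idl a))).asHomogeneousIdeal.toIdeal := by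
        intro n r hr
        have hle : Ideal.span (a '' σ) ≤ idl a := Ideal.span_mono (Set.image_subset_range _ _)
        induction hr using Submodule.mul_induction_on' with
        | mem_mul_mem s hs t ht =>
          have hst : s * t ∈ (idl a) ^ (n + 1) := by
            rw [pow_succ']
            exact Ideal.mul_mem_mul (hle hs) ht
          exact ⟨hst, h2 n s t hs ht hst⟩
        | add s _ t _ hs ht =>
          obtain ⟨hs', hs⟩ := hs
          obtain ⟨ht', ht⟩ := ht
          refine ⟨add_mem hs' ht', ?_⟩
          have : mono (idl a) (n + 1) (s + t) (add_mem hs' ht') =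
              mono (idl a) (n + 1) s hs' + mono (idl a) (n + 1) t ht' := by
            apply Subtype.ext
            change Polynomial.monomial _ (s + t) = Polynomial.monomial _ s + Polynomial.monomial _ t
            rw [map_add]
          rw [this]
          exact add_mem hs ht
      obtain ⟨M, rfl⟩ : ∃ M, N = M + 1 := ⟨N - 1, by omega⟩
      rw [Nat.add_sub_cancel] at hmem
      obtain ⟨hr', h7⟩ := h6 M _ hmem
      have h8 : (xT a j) ^ (M + 1) ∈
          (x : ProjectiveSpectrum (grade (idl a))).asHomogeneousIdeal.toIdeal := by
        rw [mono_pow]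
        exact h7
      exact hj ((x : ProjectiveSpectrum (grade (idl a))).isPrime.mem_of_pow_mem _ h8)
    have hcov' : ⨆ i : {i : κ // i ∈ σ ∧ a i ≠ 0},
        (Proj.basicOpen (grade (idl a)) (xT a i.1) : (Bl a).Opens) = ⊤ := hcov
    refine (IsZariskiLocalAtSource.iff_of_iSup_eq_top (P := @AlgebraicGeometry.Smooth)
      (X := Bl a) _ hcov').mpr ?_
    intro ⟨i, hi, hai⟩
    obtain ⟨B, _, _, _, _, _, hinj, hsm, c, hc, hgen⟩ := charts i hi hai
    obtain ⟨e, hebij, he⟩ := exists_equiv a i hinj hai c hc hgen
    have key : AlgebraicGeometry.Smooth (chart a i ≫ blMap a ≫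
        Spec.map (CommRingCat.ofHom (algebraMap k A))) := by
      rw [← Category.assoc, chart_comp, ← Spec.map_comp, HasRingHomProperty.Spec_iff
        (P := @AlgebraicGeometry.Smooth)]
      have h1 : (CommRingCat.ofHom (algebraMap k A) ≫ CommRingCat.ofHom (chartHom a i)).hom =
          e.comp (algebraMap k B) := by
        refine RingHom.ext fun r => ?_
        change chartHom a i (algebraMap k A r) = e (algebraMap k B r)
        rw [IsScalarTower.algebraMap_apply k A B, he]
        rfl
      rw [h1]
      have h2 : RingHom.Smooth (algebraMap k B) := RingHom.smooth_algebraMap.mpr hsm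
      exact RingHom.Smooth.respectsIso.1 _ (RingEquiv.ofBijective e hebij) h2
    have h3' : (Proj.basicOpenIsoSpec (grade (idl a)) (xT a i)
        (bT_mem (idl a) (a i) (mem_idl a i)) one_pos).hom ≫
        Proj.awayι (grade (idl a)) (xT a i) (bT_mem (idl a) (a i) (mem_idl a i)) one_pos =
        (Proj.basicOpen (grade (idl a)) (xT a i)).ι := by
      rw [← Proj.basicOpenIsoSpec_inv_ι, Iso.hom_inv_id_assoc]
    have h3 : (Proj.basicOpenIsoSpec (grade (idl a)) (xT a i)
        (bT_mem (idl a) (a i) (mem_idl a i)) one_pos).hom ≫ chart a i =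
        (Proj.basicOpen (grade (idl a)) (xT a i)).ι := h3'
    have h4 : AlgebraicGeometry.Smooth ((Proj.basicOpenIsoSpec (grade (idl a)) (xT a i)
        (bT_mem (idl a) (a i) (mem_idl a i)) one_pos).hom ≫ (chart a i ≫ blMap a ≫
        Spec.map (CommRingCat.ofHom (algebraMap k A)))) :=
      MorphismProperty.comp_mem (W := @AlgebraicGeometry.Smooth) _ _ inferInstance key
    rw [← Category.assoc, h3] at h4
    exact h4
  · have : IrreducibleSpace (Spec (CommRingCat.of A)) := by
      infer_instance
    apply IsOpen.dense (PrimeSpectrum.basicOpen (a i₀)).isOpen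
    refine ⟨⟨⊥, Ideal.isPrime_bot⟩, ?_⟩
    exact ha

end Tool

end Pool.Agent.H15Res
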