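import Mathlib

set_option autoImplicit false

open Polynomial

namespace Pool.Agent.H15Res

variable {C : Type} [CommRing C] [IsDomain C]

/-- coefficients in `C[τ]/(P)`. -/
noncomputable abbrev toRoot (P : C[X]) : C[X] →+* (AdjoinRoot P)[X] :=
  Polynomial.mapRingHom (algebraMap C (AdjoinRoot P))

lemma const_of_lt (P : C[X]) (hP : P.Monic) (f : C) (hf : f ≠ 0) (r : C[X])
    (hr : r.degree < P.degree)
    (hinv : taylor (AdjoinRoot.root P * algebraMap C _ f) (toRoot P r) = toRoot P r) :
    r = Polynomial.C (r.coeff 0) := by
  have h0 := congrArg (Polynomial.eval 0) hinv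
  rw [taylor_eval, zero_add] at h0
  have h1 : AdjoinRoot.mk P (r.comp (X * Polynomial.C f) - Polynomial.C (r.coeff 0)) = 0 := by
    rw [map_sub, sub_eq_zero]
    have h2 : AdjoinRoot.mk P (r.comp (X * Polynomial.C f)) =
        Polynomial.eval (AdjoinRoot.root P * algebraMap C _ f) (toRoot P r) := by
      rw [← AdjoinRoot.aeval_eq, Polynomial.aeval_def, Polynomial.eval₂_comp]
      simp only [toRoot, Polynomial.coe_mapRingHom, Polynomial.eval_map, Polynomial.aeval_mul,
        map_mul, Polynomial.aeval_X, Polynomial.aeval_C, Polynomial.eval₂_mul, Polynomial.eval₂_X,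
        Polynomial.eval₂_C]
    rw [h2, h0]
    simp [toRoot, Polynomial.eval_map]
  rw [AdjoinRoot.mk_eq_zero] at h1
  have h3 : r.comp (X * Polynomial.C f) - Polynomial.C (r.coeff 0) = 0 := by
    by_contra hne
    have h4 := Polynomial.degree_le_of_dvd h1 hne
    have h5 : (r.comp (X * Polynomial.C f) - Polynomial.C (r.coeff 0)).degree < P.degree := by
      rw [Polynomial.degree_eq_natDegree hP.ne_zero, Polynomial.degree_lt_iff_coeff_zero]
      intro m hm
      have h6 : r.coeff m = 0 := by
        apply Polynomial.coeff_eq_zero_of_degree_lt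
        refine lt_of_lt_of_le hr ?_
        rw [Polynomial.degree_eq_natDegree hP.ne_zero]
        exact_mod_cast hm
      rw [mul_comm, Polynomial.coeff_sub, Polynomial.comp_C_mul_X_coeff, h6, zero_mul, zero_sub,
        neg_eq_zero]
      rcases Nat.eq_zero_or_pos m with rfl | hm'
      · rw [Polynomial.coeff_C_zero, h6]
      · exact Polynomial.coeff_C_of_ne_zero hm'.ne'
    exact absurd h4 (not_le.mpr h5)
  ext n
  rcases Nat.eq_zero_or_pos n with rfl | hn
  · simp
  · rw [Polynomial.coeff_C_of_ne_zero hn.ne']
    have h6 := congrArg (fun z => Polynomial.coeff z n) h3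
    simp only [Polynomial.coeff_sub, Polynomial.coeff_zero, Polynomial.coeff_C_of_ne_zero hn.ne',
      sub_zero] at h6
    rw [mul_comm, Polynomial.comp_C_mul_X_coeff] at h6
    exact (mul_eq_zero.mp h6).resolve_right (pow_ne_zero _ hf)

lemma mem_adjoin_of_invariant (P : C[X]) (hP : P.Monic) (hdeg : 0 < P.natDegree) (f : C)
    (hf : f ≠ 0) (N : C[X]) (hN : N.Monic) (hNdeg : N.natDegree = P.natDegree)
    (hNinv : taylor (AdjoinRoot.root P * algebraMap C _ f) (toRoot P N) = toRoot P N) (w : C[X])
    (hw : taylor (AdjoinRoot.root P * algebraMap C _ f) (toRoot P w) = toRoot P w) :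
    w ∈ Algebra.adjoin C ({N} : Set C[X]) := by
  induction hn : w.natDegree using Nat.strong_induction_on generalizing w with
  | _ n ih =>
    have hdiv := Polynomial.modByMonic_add_div w N
    set q := w /ₘ N with hq
    set r := w %ₘ N with hr
    have hrdeg : r.degree < N.degree := Polynomial.degree_modByMonic_lt _ hN
    have hN' : (toRoot P N).Monic := hN.map _
    set t : AdjoinRoot P := AdjoinRoot.root P * algebraMap C _ f with ht
    have h1 : toRoot P w = toRoot P r + toRoot P N * toRoot P q := by
      rw [← map_mul, ← map_add, hdiv]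
    have h2 : taylor t (toRoot P w) = taylor t (toRoot P r) + toRoot P N * taylor t (toRoot P q) := by
      rw [h1, map_add, Polynomial.taylor_mul, hNinv]
    have hnt : Nontrivial (AdjoinRoot P) := AdjoinRoot.nontrivial P (by
      rw [Polynomial.degree_eq_natDegree hP.ne_zero]
      exact_mod_cast hdeg.ne')
    have hdegr : (toRoot P r).degree < (toRoot P N).degree := by
      have e1 : (toRoot P N).degree = N.degree := hN.degree_map _
      rw [e1]
      exact lt_of_le_of_lt (Polynomial.degree_map_le) hrdeg
    have h3 := Polynomial.div_modByMonic_unique (f := toRoot P w) (g := toRoot P N)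
      (toRoot P q) (toRoot P r) hN' ⟨h1.symm, hdegr⟩
    have h4 := Polynomial.div_modByMonic_unique (f := toRoot P w) (g := toRoot P N)
      (taylor t (toRoot P q)) (taylor t (toRoot P r)) hN'
      ⟨by rw [← h2, hw], by rw [Polynomial.degree_taylor]; exact hdegr⟩
    have h5 : taylor t (toRoot P q) = toRoot P q := h4.1.symm.trans h3.1
    have h6 : taylor t (toRoot P r) = toRoot P r := h4.2.symm.trans h3.2
    have h7 : r.degree < P.degree := by
      rw [Polynomial.degree_eq_natDegree hP.ne_zero, ← hNdeg,
        ← Polynomial.degree_eq_natDegree hN.ne_zero]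
      exact hrdeg
    have h8 := const_of_lt P hP f hf r h7 h6
    have h9 : q ∈ Algebra.adjoin C ({N} : Set C[X]) := by
      by_cases hq0 : q = 0
      · rw [hq0]; exact zero_mem _
      · refine ih q.natDegree ?_ q h5 rfl
        have h10 : q.natDegree = w.natDegree - N.natDegree := Polynomial.natDegree_divByMonic w hN
        have h11 : N.natDegree ≤ w.natDegree := by
          by_contra hlt
          push Not at hlt
          apply hq0
          rw [hq, Polynomial.divByMonic_eq_zero_iff hN]
          exact Polynomial.degree_lt_degree hlt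
        omega
    rw [← hdiv, h8]
    refine add_mem ?_ (mul_mem (Algebra.subset_adjoin rfl) h9)
    exact Subalgebra.algebraMap_mem _ _

end Pool.Agent.H15Res
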