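import Pool.Agent.Lib.Resolution_H15.TransDefs
import Pool.Agent.Lib.Resolution_H15.Univ
import Pool.Agent.Lib.Resolution_H15.Tool

set_option autoImplicit false

open Polynomial

namespace Pool.Agent.H15Res

section Defs

variable {R : Type} [CommRing R] {ι : Type}

lemma mem_quotientRing {f : ι → R} {P : R[X]} {g : MvPolynomial ι R} :
    g ∈ quotientRing f P ↔ P.map MvPolynomial.C ∣ shift f g - Polynomial.C g := Iff.rfl

/-- its homogenization `Y^(p^h) + ∑_{e<h} c_e F^(p^h - p^e) Y^(p^e)`. -/
noncomputable def homPoly (p h : ℕ) {S : Type} [CommRing S] (c : ℕ → S) (F Y : S) : S :=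
  Y ^ (p ^ h) + ∑ e ∈ Finset.range h, c e * F ^ (p ^ h - p ^ e) * Y ^ (p ^ e)

lemma homPoly_add (p h : ℕ) {S : Type} [CommRing S] [hp : Fact p.Prime] [CharP S p]
    (c : ℕ → S) (F Y Z : S) :
    homPoly p h c F (Y + Z) = homPoly p h c F Y + homPoly p h c F Z := by
  unfold homPoly
  rw [add_pow_char_pow]
  have : ∀ e ∈ Finset.range h, c e * F ^ (p ^ h - p ^ e) * (Y + Z) ^ (p ^ e) =
      c e * F ^ (p ^ h - p ^ e) * Y ^ (p ^ e) + c e * F ^ (p ^ h - p ^ e) * Z ^ (p ^ e) := by
    intro e _
    rw [add_pow_char_pow]; ring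
  rw [Finset.sum_congr rfl this, Finset.sum_add_distrib]
  ring

lemma homPoly_mul (p h : ℕ) {S : Type} [CommRing S] (hp : 1 < p)
    (c : ℕ → S) (F Y G : S) :
    homPoly p h c (G * F) (G * Y) = G ^ (p ^ h) * homPoly p h c F Y := by
  unfold homPoly
  rw [mul_add, mul_pow, Finset.mul_sum]
  congr 1
  apply Finset.sum_congr rfl
  intro e he
  have h1 : p ^ e ≤ p ^ h := Nat.pow_le_pow_right (by omega) (Finset.mem_range.mp he).le
  have h2 : G ^ (p ^ h) = G ^ (p ^ h - p ^ e) * G ^ (p ^ e) := by
    rw [← pow_add, Nat.sub_add_cancel h1]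
  rw [h2, mul_pow, mul_pow]
  ring

lemma homPoly_map (p h : ℕ) {S T : Type} [CommRing S] [CommRing T] (ψ : S →+* T)
    (c : ℕ → S) (F Y : S) :
    ψ (homPoly p h c F Y) = homPoly p h (fun e => ψ (c e)) (ψ F) (ψ Y) := by
  unfold homPoly
  simp [map_add, map_sum]

lemma homPoly_neg (p h : ℕ) {S : Type} [CommRing S] [hp : Fact p.Prime] [CharP S p]
    (c : ℕ → S) (F Y : S) : homPoly p h c F (-Y) = - homPoly p h c F Y := by
  have h0 : homPoly p h c F 0 = 0 := by
    unfold homPoly
    have hp' := hp.out.pos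
    rw [zero_pow (pow_pos hp' h).ne', zero_add]
    apply Finset.sum_eq_zero
    intro e _
    rw [zero_pow (pow_pos hp' e).ne', mul_zero]
  have h1 := homPoly_add p h c F Y (-Y)
  rw [add_neg_cancel, h0] at h1
  linear_combination -h1

lemma homPoly_sub (p h : ℕ) {S : Type} [CommRing S] [hp : Fact p.Prime] [CharP S p]
    (c : ℕ → S) (F Y Z : S) :
    homPoly p h c F (Y - Z) = homPoly p h c F Y - homPoly p h c F Z := by
  rw [sub_eq_add_neg, homPoly_add, homPoly_neg, sub_eq_add_neg]

lemma addPoly_eq (p h : ℕ) (c : ℕ → R) :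
    addPoly p h c = homPoly p h (fun e => Polynomial.C (c e)) 1 Polynomial.X := by
  unfold addPoly homPoly
  simp

lemma addPoly_map (p h : ℕ) {S : Type} [CommRing S] (ψ : R →+* S) (c : ℕ → R) :
    (addPoly p h c).map ψ = addPoly p h (fun e => ψ (c e)) := by
  unfold addPoly
  simp [Polynomial.map_sum]

lemma sum_degree_lt (p h : ℕ) (hp : 1 < p) {S : Type} [CommRing S] (F : ℕ → S) :
    (∑ e ∈ Finset.range h, Polynomial.C (F e) * Polynomial.X ^ (p ^ e)).degree <
      ((p ^ h : ℕ) : WithBot ℕ) := by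
  refine lt_of_le_of_lt (Polynomial.degree_sum_le _ _) ?_
  rw [Finset.sup_lt_iff (by exact_mod_cast WithBot.bot_lt_coe _)]
  intro e he
  refine lt_of_le_of_lt (Polynomial.degree_C_mul_X_pow_le _ _) ?_
  exact_mod_cast Nat.pow_lt_pow_right hp (Finset.mem_range.mp he)

lemma homPoly_monic (p h : ℕ) (hp : 1 < p) {S : Type} [CommRing S] (c : ℕ → S) (F : S) :
    (homPoly p h (fun e => Polynomial.C (c e)) (Polynomial.C F) Polynomial.X).Monic := by
  unfold homPoly
  have : ∀ e ∈ Finset.range h, Polynomial.C (c e) * Polynomial.C F ^ (p ^ h - p ^ e) *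
      Polynomial.X ^ (p ^ e) = Polynomial.C (c e * F ^ (p ^ h - p ^ e)) * Polynomial.X ^ (p ^ e) := by
    intro e _; simp
  rw [Finset.sum_congr rfl this]
  exact Polynomial.monic_X_pow_add (sum_degree_lt p h hp _)

lemma homPoly_natDegree (p h : ℕ) (hp : 1 < p) {S : Type} [CommRing S] [Nontrivial S] (c : ℕ → S)
    (F : S) :
    (homPoly p h (fun e => Polynomial.C (c e)) (Polynomial.C F) Polynomial.X).natDegree =
      p ^ h := by
  unfold homPoly
  have : ∀ e ∈ Finset.range h, Polynomial.C (c e) * Polynomial.C F ^ (p ^ h - p ^ e) *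
      Polynomial.X ^ (p ^ e) = Polynomial.C (c e * F ^ (p ^ h - p ^ e)) * Polynomial.X ^ (p ^ e) := by
    intro e _; simp
  rw [Finset.sum_congr rfl this]
  apply Polynomial.natDegree_eq_of_degree_eq_some
  rw [Polynomial.degree_add_eq_left_of_degree_lt]
  · exact Polynomial.degree_X_pow _
  · rw [Polynomial.degree_X_pow]
    exact sum_degree_lt p h hp _

lemma addPoly_monic (p h : ℕ) (hp : 1 < p) (c : ℕ → R) : (addPoly p h c).Monic := by
  rw [addPoly_eq]
  have := homPoly_monic p h hp c 1
  rwa [map_one] at this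

lemma addPoly_natDegree (p h : ℕ) (hp : 1 < p) [Nontrivial R] (c : ℕ → R) :
    (addPoly p h c).natDegree = p ^ h := by
  rw [addPoly_eq]
  have := homPoly_natDegree p h hp c 1
  rwa [map_one] at this

/-- The norm `N_i`. -/
noncomputable def nrm (p h : ℕ) (c : ℕ → R) (f : ι → R) (i : ι) : MvPolynomial ι R :=
  homPoly p h (fun e => MvPolynomial.C (c e)) (MvPolynomial.C (f i)) (MvPolynomial.X i)

/-- The minor `M_jl = f_j y_l - f_l y_j`. -/
noncomputable def mnr (f : ι → R) (j l : ι) : MvPolynomial ι R :=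
  MvPolynomial.C (f j) * MvPolynomial.X l - MvPolynomial.C (f l) * MvPolynomial.X j

lemma mnr_mem (f : ι → R) (P : R[X]) (j l : ι) : mnr f j l ∈ quotientRing f P := by
  rw [mem_quotientRing]
  have h : shift f (mnr f j l) = Polynomial.C (mnr f j l) := by
    unfold mnr shift
    simp only [map_sub, map_mul, MvPolynomial.aeval_X]
    rw [MvPolynomial.aeval_C, MvPolynomial.aeval_C]
    simp only [Polynomial.algebraMap_apply, MvPolynomial.algebraMap_eq]
    ring
  rw [h, sub_self]
  exact dvd_zero _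

lemma nrm_mem (p h : ℕ) [hp : Fact p.Prime] [CharP R p] (c : ℕ → R) (f : ι → R) (i : ι) :
    nrm p h c f i ∈ quotientRing f (addPoly p h c) := by
  rw [mem_quotientRing]
  have h1 : shift f (nrm p h c f i) = Polynomial.C (nrm p h c f i) +
      Polynomial.C (MvPolynomial.C (f i)) ^ (p ^ h) * (addPoly p h c).map MvPolynomial.C := by
    have e1 : shift f (nrm p h c f i) = homPoly p h (fun e => Polynomial.C (MvPolynomial.C (c e)))
        (Polynomial.C (MvPolynomial.C (f i))) (Polynomial.C (MvPolynomial.X i) +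
          Polynomial.X * Polynomial.C (MvPolynomial.C (f i))) := by
      unfold nrm
      have := homPoly_map p h (shift f).toRingHom (fun e => MvPolynomial.C (c e))
        (MvPolynomial.C (f i)) (MvPolynomial.X i)
      refine Eq.trans this ?_
      have e2 : ∀ r : R, (shift f).toRingHom (MvPolynomial.C r) =
          Polynomial.C (MvPolynomial.C r) := by
        intro r
        exact (shift f).commutes r
      have e3 : (shift f).toRingHom (MvPolynomial.X i) = Polynomial.C (MvPolynomial.X i) +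
          Polynomial.X * Polynomial.C (MvPolynomial.C (f i)) := by
        exact MvPolynomial.aeval_X _ i
      simp only [e2, e3]
    rw [e1, homPoly_add]
    congr 1
    · exact (homPoly_map p h Polynomial.C (fun e => MvPolynomial.C (c e))
        (MvPolynomial.C (f i)) (MvPolynomial.X i)).symm
    · rw [addPoly_map, addPoly_eq, mul_comm Polynomial.X]
      have := homPoly_mul p h hp.out.one_lt
        (fun e => (Polynomial.C (MvPolynomial.C (c e)) : (MvPolynomial ι R)[X])) 1 Polynomial.X
        (Polynomial.C (MvPolynomial.C (f i)))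
      rwa [mul_one] at this
  rw [h1, add_sub_cancel_left]
  exact dvd_mul_left _ _

end Defs

end Pool.Agent.H15Res
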