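import Pool.Agent.Lib.Resolution_H15.Trans

set_option autoImplicit false

open Polynomial

namespace Pool.Agent.H15Res

section Chart

variable {R : Type} [CommRing R] {ι : Type} [DecidableEq ι]
variable {D : Type} [CommRing D] [Algebra R D]

/-- coordinates of the chart -/
noncomputable def zv (D : Type) [CommRing D] {ι : Type} [DecidableEq ι] (i : ι) (j : ι) :
    MvPolynomial {j : ι // j ≠ i} D :=
  if hj : j = i then 0 else MvPolynomial.X ⟨j, hj⟩

/-- the substitution `y_j = z_j + φ_j y_i`. -/
noncomputable def thet (i : ι) (φ : ι → D) :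
    MvPolynomial ι R →ₐ[R] (MvPolynomial {j : ι // j ≠ i} D)[X] :=
  MvPolynomial.aeval (fun j => Polynomial.C (zv D i j) +
    Polynomial.C (MvPolynomial.C (φ j)) * Polynomial.X)

lemma thet_X (i : ι) (φ : ι → D) (j : ι) :
    thet (R := R) i φ (MvPolynomial.X j) = Polynomial.C (zv D i j) +
      Polynomial.C (MvPolynomial.C (φ j)) * Polynomial.X := MvPolynomial.aeval_X _ _

lemma thet_C (i : ι) (φ : ι → D) (r : R) :
    thet (R := R) i φ (MvPolynomial.C r) =
      Polynomial.C (MvPolynomial.C (algebraMap R D r)) := by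
  have := (thet (R := R) i φ).commutes r
  exact this

lemma zv_self (i : ι) : zv D i i = 0 := by simp [zv]

lemma thet_nrm (p h : ℕ) (c : ℕ → R) (f : ι → R) (i : ι) (φ : ι → D) (hφi : φ i = 1) :
    thet i φ (nrm p h c f i) =
      homPoly p h (fun e => Polynomial.C (MvPolynomial.C (algebraMap R D (c e))))
        (Polynomial.C (MvPolynomial.C (algebraMap R D (f i)))) Polynomial.X := by
  unfold nrm
  refine (homPoly_map p h (thet i φ).toRingHom (fun e => MvPolynomial.C (c e))
        (MvPolynomial.C (f i)) (MvPolynomial.X i)).trans ?_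
  have e2 : ∀ r : R, (thet i φ).toRingHom (MvPolynomial.C r) =
      Polynomial.C (MvPolynomial.C (algebraMap R D r)) := thet_C i φ
  have e3 : (thet (R := R) i φ).toRingHom (MvPolynomial.X i) = Polynomial.X := by
    refine (thet_X i φ i).trans ?_
    rw [zv_self, hφi]
    simp
  simp only [e2, e3]

lemma thet_mnr (f : ι → R) (i : ι) (φ : ι → D)
    (hφ : ∀ j, algebraMap R D (f j) = φ j * algebraMap R D (f i)) (j l : ι) :
    thet i φ (mnr f j l) = Polynomial.C (MvPolynomial.C (algebraMap R D (f i)) *
      (MvPolynomial.C (φ j) * zv D i l - MvPolynomial.C (φ l) * zv D i j)) := by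
  unfold mnr
  rw [map_sub, map_mul, map_mul, thet_X, thet_X, thet_C, thet_C, hφ j, hφ l]
  simp only [map_mul, map_sub]
  ring

/-- the invariance is transported by `thet`. -/
lemma thet_invariant (i : ι) (φ : ι → D) (f : ι → R)
    (hφ : ∀ j, algebraMap R D (f j) = φ j * algebraMap R D (f i)) (P : R[X])
    (g : MvPolynomial ι R) (hg : g ∈ quotientRing f P) :
    taylor (AdjoinRoot.root (P.map (algebraMap R (MvPolynomial {j : ι // j ≠ i} D))) *
        algebraMap (MvPolynomial {j : ι // j ≠ i} D) _ (MvPolynomial.C (algebraMap R D (f i))))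
      (toRoot (P.map (algebraMap R (MvPolynomial {j : ι // j ≠ i} D))) (thet i φ g)) =
      toRoot (P.map (algebraMap R (MvPolynomial {j : ι // j ≠ i} D))) (thet i φ g) := by
  set C0 := MvPolynomial {j : ι // j ≠ i} D with hC0
  set P0 : C0[X] := P.map (algebraMap R C0) with hP0
  set t : AdjoinRoot P0 := AdjoinRoot.root P0 *
    algebraMap C0 _ (MvPolynomial.C (algebraMap R D (f i))) with ht
  set Ψ0 : MvPolynomial ι R →+* (AdjoinRoot P0)[X] :=
    (toRoot P0).comp (thet (R := R) i φ).toRingHom with hΨ0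
  set Ψ : (MvPolynomial ι R)[X] →+* (AdjoinRoot P0)[X] :=
    Polynomial.eval₂RingHom Ψ0 (Polynomial.C (AdjoinRoot.root P0)) with hΨ
  have hΨC : ∀ r : R, Ψ0 (MvPolynomial.C r) =
      Polynomial.C (algebraMap C0 (AdjoinRoot P0) (algebraMap R C0 r)) := by
    intro r
    have : Ψ0 (MvPolynomial.C r) = toRoot P0 (thet (R := R) i φ (MvPolynomial.C r)) := rfl
    rw [this, thet_C]
    simp only [toRoot, Polynomial.coe_mapRingHom, Polynomial.map_C]
    rfl
  have h1 : Ψ (P.map MvPolynomial.C) = 0 := by
    rw [hΨ, Polynomial.coe_eval₂RingHom, Polynomial.eval₂_map]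
    have e1 : Ψ0.comp MvPolynomial.C = (Polynomial.C).comp
        ((algebraMap C0 (AdjoinRoot P0)).comp (algebraMap R C0)) := by
      ext1 r
      simp only [RingHom.comp_apply]
      exact hΨC r
    rw [e1, ← Polynomial.hom_eval₂, ← Polynomial.eval₂_map]
    have e2 : Polynomial.eval₂ (algebraMap C0 (AdjoinRoot P0)) (AdjoinRoot.root P0)
        (P.map (algebraMap R C0)) = 0 := AdjoinRoot.eval₂_root P0
    rw [e2, map_zero]
  have h2 : ∀ q : MvPolynomial ι R, Ψ (shift f q) = taylor t (Ψ0 q) := by
    intro q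
    have e3 : Ψ.comp (shift f).toRingHom = ((taylorAlgHom t).toRingHom).comp Ψ0 := by
      apply MvPolynomial.ringHom_ext
      · intro r
        simp only [RingHom.comp_apply]
        have a1 : (shift f).toRingHom (MvPolynomial.C r) =
            Polynomial.C (MvPolynomial.C r) := (shift f).commutes r
        rw [a1, hΨ, Polynomial.coe_eval₂RingHom, Polynomial.eval₂_C, hΨC]
        exact (Polynomial.taylor_C _ _).symm
      · intro j
        simp only [RingHom.comp_apply]
        have a1 : (shift f).toRingHom (MvPolynomial.X j) = Polynomial.C (MvPolynomial.X j) +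
            Polynomial.X * Polynomial.C (MvPolynomial.C (f j)) := MvPolynomial.aeval_X _ j
        have a2 : Ψ0 (MvPolynomial.X j) = Polynomial.C (algebraMap C0 _ (zv D i j)) +
            Polynomial.C (algebraMap C0 _ (MvPolynomial.C (φ j))) * Polynomial.X := by
          have : Ψ0 (MvPolynomial.X j) = toRoot P0 (thet (R := R) i φ (MvPolynomial.X j)) := rfl
          rw [this, thet_X]
          simp [toRoot]
        have a3 : (taylorAlgHom t).toRingHom (Ψ0 (MvPolynomial.X j)) =
            taylor t (Ψ0 (MvPolynomial.X j)) := rfl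
        rw [a3, a1, hΨ, Polynomial.coe_eval₂RingHom, Polynomial.eval₂_add, Polynomial.eval₂_mul,
          Polynomial.eval₂_C, Polynomial.eval₂_C, Polynomial.eval₂_X, a2, hΨC, map_add,
          Polynomial.taylor_mul, Polynomial.taylor_C, Polynomial.taylor_C, Polynomial.taylor_X]
        have a4 : algebraMap R C0 (f j) = MvPolynomial.C (φ j) *
            MvPolynomial.C (algebraMap R D (f i)) := by
          have : algebraMap R C0 (f j) = MvPolynomial.C (algebraMap R D (f j)) := rfl
          rw [this, hφ j, map_mul]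
        rw [a4, ht]
        simp only [map_mul]
        ring
    exact congrArg (fun ψ : _ →+* _ => ψ q) e3
  obtain ⟨w, hw⟩ := (mem_quotientRing.mp hg)
  have h3 := congrArg Ψ hw
  rw [map_mul, h1, zero_mul, map_sub, h2, sub_eq_zero] at h3
  have h4 : Ψ (Polynomial.C g) = Ψ0 g := by
    rw [hΨ, Polynomial.coe_eval₂RingHom, Polynomial.eval₂_C]
  rw [h4] at h3
  exact h3

lemma thet_mem [IsDomain D] (p h : ℕ) [hp : Fact p.Prime] [CharP R p]
    (hRD : Function.Injective (algebraMap R D)) (c : ℕ → R) (i : ι) (φ : ι → D) (f : ι → R)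
    (hfi : f i ≠ 0)
    (hφ : ∀ j, algebraMap R D (f j) = φ j * algebraMap R D (f i))
    (g : MvPolynomial ι R) (hg : g ∈ quotientRing f (addPoly p h c)) :
    thet i φ g ∈ Algebra.adjoin (MvPolynomial {j : ι // j ≠ i} D)
      ({thet i φ (nrm p h c f i)} : Set (MvPolynomial {j : ι // j ≠ i} D)[X]) := by
  have hfi' : algebraMap R D (f i) ≠ 0 := by
    rw [Ne, map_eq_zero_iff _ hRD]; exact hfi
  have hφi : φ i = 1 := by
    have := hφ i
    have h2 : (φ i - 1) * algebraMap R D (f i) = 0 := by linear_combination -this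
    exact sub_eq_zero.mp ((mul_eq_zero.mp h2).resolve_right hfi')
  have hNe := thet_nrm p h c f i φ hφi
  have hPe : (addPoly p h c).map (algebraMap R (MvPolynomial {j : ι // j ≠ i} D)) =
      addPoly p h (fun e => MvPolynomial.C (algebraMap R D (c e))) := addPoly_map p h _ c
  apply mem_adjoin_of_invariant
    ((addPoly p h c).map (algebraMap R (MvPolynomial {j : ι // j ≠ i} D)))
    ((addPoly_monic p h hp.out.one_lt c).map _) ?_ (MvPolynomial.C (algebraMap R D (f i))) ?_
    _ ?_ ?_ ?_ _ ?_
  · rw [hPe, addPoly_natDegree p h hp.out.one_lt]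
    exact pow_pos hp.out.pos h
  · rw [Ne, map_eq_zero_iff _ (MvPolynomial.C_injective _ _)]
    exact hfi'
  · rw [hNe]
    exact homPoly_monic p h hp.out.one_lt _ _
  · rw [hNe, hPe, addPoly_natDegree p h hp.out.one_lt]
    exact homPoly_natDegree p h hp.out.one_lt _ _
  · exact thet_invariant i φ f hφ _ _ (nrm_mem p h c f i)
  · exact thet_invariant i φ f hφ _ _ hg

end Chart

end Pool.Agent.H15Res
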