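import Mathlib

/-! # Quotients by finite group schemes of translations: definitions -/

set_option autoImplicit false

open Polynomial

namespace Pool.Agent.H15Res

section Defs

variable {R : Type} [CommRing R] {ι : Type}

/-- The substitution `y ↦ y + τ f`. -/
noncomputable def shift (f : ι → R) : MvPolynomial ι R →ₐ[R] (MvPolynomial ι R)[X] :=
  MvPolynomial.aeval (fun i => Polynomial.C (MvPolynomial.X i) +
    Polynomial.X * Polynomial.C (MvPolynomial.C (f i)))

/-- The algebra of polynomials `g(y)` such that `P(τ)` divides `g(y + τ f) - g(y)`. -/
noncomputable def quotientRing (f : ι → R) (P : R[X]) : Subalgebra R (MvPolynomial ι R) where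
  carrier := {g | P.map MvPolynomial.C ∣ shift f g - Polynomial.C g}
  mul_mem' := by
    rintro a b ha hb
    have h : shift f (a * b) - Polynomial.C (a * b) =
        shift f a * (shift f b - Polynomial.C b) + (shift f a - Polynomial.C a) * Polynomial.C b := by
      rw [map_mul, map_mul]; ring
    change _ ∣ shift f (a * b) - Polynomial.C (a * b)
    rw [h]
    exact dvd_add (dvd_mul_of_dvd_right hb _) (dvd_mul_of_dvd_left ha _)
  add_mem' := by
    rintro a b ha hb
    have h : shift f (a + b) - Polynomial.C (a + b) =
        (shift f a - Polynomial.C a) + (shift f b - Polynomial.C b) := by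
      rw [map_add, map_add]; ring
    change _ ∣ shift f (a + b) - Polynomial.C (a + b)
    rw [h]
    exact dvd_add ha hb
  algebraMap_mem' := by
    intro r
    change _ ∣ shift f (algebraMap R _ r) - Polynomial.C (algebraMap R _ r)
    have h : shift f (algebraMap R _ r) = Polynomial.C (algebraMap R _ r) := by
      rw [AlgHom.commutes]
      rfl
    rw [h, sub_self]
    exact dvd_zero _

/-- The monic `p`-polynomial `τ^(p^h) + ∑_{e<h} c_e τ^(p^e)`. -/
noncomputable def addPoly (p h : ℕ) (c : ℕ → R) : R[X] :=
  Polynomial.X ^ (p ^ h) + ∑ e ∈ Finset.range h, Polynomial.C (c e) * Polynomial.X ^ (p ^ e)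

end Defs

/-- The chart of the blow-up of `Spec R` in the product of the ideals generated by `b` and by `f`
where `b s` and `f i` are the generators: the `R`-subalgebra of the fraction field generated by the
`b t / b s` and the `f j / f i`. -/
noncomputable def chartRing {R : Type} [CommRing R] [IsDomain R] {ι T : Type}
    (f : ι → R) (b : T → R) (s : T) (i : ι) : Subalgebra R (FractionRing R) :=
  Algebra.adjoin R
    (Set.range (fun t => algebraMap R (FractionRing R) (b t) / algebraMap R (FractionRing R) (b s)) ∪
     Set.range (fun j => algebraMap R (FractionRing R) (f j) / algebraMap R (FractionRing R) (f i)))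

end Pool.Agent.H15Res
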