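import Pool.Agent.Lib.Resolution_H15.TransChart

set_option autoImplicit false

open Polynomial AlgebraicGeometry CategoryTheory

namespace Pool.Agent.H15Res

lemma chart_abs {k A W : Type} [Field k] [CommRing A] [Algebra k A] [CommRing W] [IsDomain W]
    [Algebra k W] (θ : A →ₐ[k] W) (hθ : Function.Injective θ) (B : Subalgebra k W)
    (hB : ∀ x, θ x ∈ B) (hsm : Algebra.Smooth k B) {κ : Type} (a : κ → A) (i : κ) (c : κ → W)
    (hc : ∀ j, θ (a j) = c j * θ (a i)) (hcB : ∀ j, c j ∈ B)
    (hgen : B ≤ Algebra.adjoin k (Set.range θ ∪ Set.range c)) :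
    ∃ (B : Type) (_ : CommRing B) (_ : IsDomain B) (_ : Algebra A B)
      (_ : Algebra k B) (_ : IsScalarTower k A B), Function.Injective (algebraMap A B) ∧
      Algebra.Smooth k B ∧ ∃ c' : κ → B, (∀ j, algebraMap A B (a j) = c' j *
          algebraMap A B (a i)) ∧ Algebra.adjoin A (Set.range c') = ⊤ := by
  let alg : A →ₐ[k] B := θ.codRestrict B hB
  let i1 : Algebra A B := alg.toRingHom.toAlgebra
  have hst : IsScalarTower k A B := IsScalarTower.of_algebraMap_eq (fun x => (alg.commutes x).symm)
  refine ⟨B, inferInstance, inferInstance, i1, inferInstance, hst, ?_, hsm,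
    fun j => ⟨c j, hcB j⟩, ?_, ?_⟩
  · intro x y hxy
    exact hθ (congrArg Subtype.val hxy)
  · intro j
    exact Subtype.ext (hc j)
  · rw [eq_top_iff]
    rintro b -
    set S : Subalgebra A B := Algebra.adjoin A (Set.range (fun j => (⟨c j, hcB j⟩ : B))) with hS
    have h1 : Algebra.adjoin k (Set.range θ ∪ Set.range c) ≤ (S.restrictScalars k).map B.val := by
      rw [Algebra.adjoin_le_iff]
      rintro w (⟨x, rfl⟩ | ⟨j, rfl⟩)
      · exact ⟨algebraMap A B x, Subalgebra.algebraMap_mem S x, rfl⟩
      · exact ⟨⟨c j, hcB j⟩, Algebra.subset_adjoin ⟨j, rfl⟩, rfl⟩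
    obtain ⟨s, hs, hsb⟩ := h1 (hgen b.2)
    have : s = b := Subtype.ext hsb
    rw [← this]
    exact hs

section Inj

variable {R : Type} [CommRing R] {ι : Type} [DecidableEq ι]
variable {D : Type} [CommRing D] [Algebra R D]

lemma thet_injective (hRD : Function.Injective (algebraMap R D)) (i : ι) (φ : ι → D)
    (hφi : φ i = 1) : Function.Injective (thet (R := R) i φ) := by
  set Λ0 : MvPolynomial {j : ι // j ≠ i} D →+* MvPolynomial ι D :=
    MvPolynomial.eval₂Hom MvPolynomial.C (fun j => MvPolynomial.X j.1 -
      MvPolynomial.C (φ j.1) * MvPolynomial.X i) with hΛ0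
  set Λ : (MvPolynomial {j : ι // j ≠ i} D)[X] →+* MvPolynomial ι D :=
    Polynomial.eval₂RingHom Λ0 (MvPolynomial.X i) with hΛ
  have h : Λ.comp (thet (R := R) i φ).toRingHom = MvPolynomial.map (algebraMap R D) := by
    apply MvPolynomial.ringHom_ext
    · intro r
      have e : (thet (R := R) i φ).toRingHom (MvPolynomial.C r) =
        Polynomial.C (MvPolynomial.C (algebraMap R D r)) := thet_C i φ r
      rw [RingHom.comp_apply, e, hΛ, Polynomial.coe_eval₂RingHom, Polynomial.eval₂_C,
        MvPolynomial.map_C, hΛ0, MvPolynomial.eval₂Hom_C]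
    · intro j
      have e : (thet (R := R) i φ).toRingHom (MvPolynomial.X j) =
        Polynomial.C (zv D i j) +
          Polynomial.C (MvPolynomial.C (φ j)) * Polynomial.X := thet_X i φ j
      rw [RingHom.comp_apply, e, hΛ, Polynomial.coe_eval₂RingHom, Polynomial.eval₂_add,
        Polynomial.eval₂_mul, Polynomial.eval₂_C, Polynomial.eval₂_C, Polynomial.eval₂_X,
        MvPolynomial.map_X, hΛ0, MvPolynomial.eval₂Hom_C]
      by_cases hj : j = i
      · subst hj
        rw [zv_self, map_zero, hφi, map_one]; ring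
      · rw [zv, dif_neg hj, MvPolynomial.eval₂Hom_X']
        ring
  have h2 : Function.Injective (Λ ∘ (thet (R := R) i φ)) := by
    have : (Λ ∘ (thet (R := R) i φ)) = ⇑(Λ.comp (thet (R := R) i φ).toRingHom) := rfl
    rw [this, h]
    exact MvPolynomial.map_injective _ hRD
  exact Function.Injective.of_comp h2

end Inj

section Fam

variable {R : Type} [CommRing R] {ι T : Type}

/-- The generators of the ideal. -/
noncomputable def aFam (f : ι → R) (b : T → R) (P : R[X]) :
    T × (ι ⊕ ι × ι) → quotientRing f P
  | (t, Sum.inl j) => algebraMap R _ (b t * f j)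
  | (t, Sum.inr (j, l)) => algebraMap R _ (b t) * ⟨mnr f j l, mnr_mem f P j l⟩

end Fam

section Chart

variable {k R : Type} [Field k] [CommRing R] [Algebra k R] {ι T : Type}
variable [DecidableEq ι] [Finite ι]
variable {D : Type} [CommRing D] [IsDomain D] [Algebra R D] [Algebra k D] [IsScalarTower k R D]

omit [IsDomain D] in
lemma smooth_poly [Algebra.Smooth k D] (J : Type) [Finite J] :
    Algebra.Smooth k (MvPolynomial J D)[X] := by
  have h1 : Algebra.Smooth D (MvPolynomial J D) := ⟨inferInstance, inferInstance⟩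
  have h2 : Algebra.Smooth (MvPolynomial J D) (MvPolynomial J D)[X] :=
    ⟨inferInstance, inferInstance⟩
  have h3 : Algebra.Smooth k (MvPolynomial J D) := Algebra.Smooth.comp k D _
  exact Algebra.Smooth.comp k (MvPolynomial J D) _

lemma trans_chart [Algebra.Smooth k D] (p h : ℕ) [hp : Fact p.Prime] [CharP R p]
    (hRD : Function.Injective (algebraMap R D)) (c : ℕ → R) (i : ι) (φ : ι → D) (f : ι → R)
    (b : T → R) (s : T) (β : T → D)
    (hfi : f i ≠ 0) (hbs : b s ≠ 0)
    (hφ : ∀ j, algebraMap R D (f j) = φ j * algebraMap R D (f i))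
    (hβ : ∀ t, algebraMap R D (b t) = β t * algebraMap R D (b s))
    (hgen : Algebra.adjoin R (Set.range β ∪ Set.range φ) = ⊤) :
    ∃ (B : Type) (_ : CommRing B) (_ : IsDomain B)
      (_ : Algebra (quotientRing f (addPoly p h c)) B)
      (_ : Algebra k B) (_ : IsScalarTower k (quotientRing f (addPoly p h c)) B),
      Function.Injective (algebraMap (quotientRing f (addPoly p h c)) B) ∧
      Algebra.Smooth k B ∧
      ∃ c' : T × (ι ⊕ ι × ι) → B, (∀ j, algebraMap (quotientRing f (addPoly p h c)) B
        (aFam f b (addPoly p h c) j) = c' j *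
          algebraMap (quotientRing f (addPoly p h c)) B
            (aFam f b (addPoly p h c) (s, Sum.inl i))) ∧
        Algebra.adjoin (quotientRing f (addPoly p h c)) (Set.range c') = ⊤ := by
  have hfi' : algebraMap R D (f i) ≠ 0 := by
    rw [Ne, map_eq_zero_iff _ hRD]; exact hfi
  have hbs' : algebraMap R D (b s) ≠ 0 := by
    rw [Ne, map_eq_zero_iff _ hRD]; exact hbs
  have hφi : φ i = 1 := by
    have := hφ i
    have h2 : (φ i - 1) * algebraMap R D (f i) = 0 := by linear_combination -this
    exact sub_eq_zero.mp ((mul_eq_zero.mp h2).resolve_right hfi')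
  have hβs : β s = 1 := by
    have := hβ s
    have h2 : (β s - 1) * algebraMap R D (b s) = 0 := by linear_combination -this
    exact sub_eq_zero.mp ((mul_eq_zero.mp h2).resolve_right hbs')
  set P := addPoly p h c with hP
  set N := thet i φ (nrm p h c f i) with hN
  have hNe := thet_nrm p h c f i φ hφi
  set ev : (MvPolynomial {j : ι // j ≠ i} D)[X] →ₐ[MvPolynomial {j : ι // j ≠ i} D]
    (MvPolynomial {j : ι // j ≠ i} D)[X] := Polynomial.aeval N with hev
  have hevinj : Function.Injective ev := by
    rw [injective_iff_map_eq_zero]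
    intro g hg
    have h1 : g.comp N = 0 := hg
    rw [Polynomial.comp_eq_zero_iff] at h1
    rcases h1 with h1 | ⟨-, h1⟩
    · exact h1
    · exfalso
      have h2 : N.natDegree = p ^ h := by
        rw [hN, hNe]
        exact homPoly_natDegree p h hp.out.one_lt _ _
      rw [h1, Polynomial.natDegree_C] at h2
      exact absurd h2.symm (pow_pos hp.out.pos h).ne'
  have hmem : ∀ g : quotientRing f P, thet i φ g.1 ∈ (ev.restrictScalars k).range := by
    intro g
    have := thet_mem p h hRD c i φ f hfi hφ g.1 g.2
    rw [Algebra.adjoin_singleton_eq_range_aeval] at this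
    exact this
  let θ : quotientRing f P →ₐ[k] (MvPolynomial {j : ι // j ≠ i} D)[X] :=
    { toRingHom := (thet (R := R) i φ).toRingHom.comp (quotientRing f P).val.toRingHom
      commutes' := by
        intro x
        have e1 : (algebraMap k (quotientRing f P) x).1 = MvPolynomial.C (algebraMap k R x) := rfl
        have e2 : thet i φ (algebraMap k (quotientRing f P) x).1 =
            algebraMap k (MvPolynomial {j : ι // j ≠ i} D)[X] x := by
          rw [e1, thet_C, ← IsScalarTower.algebraMap_apply]
          rfl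
        exact e2 }
  have hθ : ∀ g : quotientRing f P, θ g = thet i φ g.1 := fun g => rfl
  have hfam1 : ∀ t j, θ (aFam f b P (t, Sum.inl j)) =
      Polynomial.C (MvPolynomial.C (algebraMap R D (b t) * algebraMap R D (f j))) := by
    intro t j
    have e0 : (aFam f b P (t, Sum.inl j)).1 = MvPolynomial.C (b t * f j) := rfl
    rw [hθ, e0, thet_C, map_mul]
  have hfam2 : ∀ t j l, θ (aFam f b P (t, Sum.inr (j, l))) =
      Polynomial.C (MvPolynomial.C (algebraMap R D (b t))) *
      Polynomial.C (MvPolynomial.C (algebraMap R D (f i)) *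
      (MvPolynomial.C (φ j) * zv D i l - MvPolynomial.C (φ l) * zv D i j)) := by
    intro t j l
    have e0 : (aFam f b P (t, Sum.inr (j, l))).1 = MvPolynomial.C (b t) * mnr f j l := rfl
    rw [hθ, e0, map_mul, thet_C, thet_mnr f i φ hφ]
  have hrng : ∀ x : MvPolynomial {j : ι // j ≠ i} D, Polynomial.C x ∈
      (ev.restrictScalars k).range := by
    intro x
    exact ⟨Polynomial.C x, by
      change ev (Polynomial.C x) = Polynomial.C x
      rw [hev, Polynomial.aeval_C]; rfl⟩
  refine chart_abs θ ?_ (ev.restrictScalars k).range hmem ?_ (aFam f b P) (s, Sum.inl i)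
    (fun x => match x with
      | (t, Sum.inl j) => Polynomial.C (MvPolynomial.C (β t * φ j))
      | (t, Sum.inr (j, l)) => Polynomial.C (MvPolynomial.C (β t) *
          (MvPolynomial.C (φ j) * zv D i l - MvPolynomial.C (φ l) * zv D i j))) ?_ ?_ ?_
  · intro x y hxy
    exact Subtype.ext (thet_injective hRD i φ hφi hxy)
  · have : Algebra.Smooth k (MvPolynomial {j : ι // j ≠ i} D)[X] := smooth_poly _
    exact Algebra.Smooth.of_equiv (AlgEquiv.ofInjective (ev.restrictScalars k) hevinj)
  · rintro ⟨t, j | ⟨j, l⟩⟩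
    · rw [hfam1, hfam1, hφ j, hβ t]
      simp only [map_mul]
      ring
    · rw [hfam1, hfam2, hβ t]
      simp only [map_mul]
      ring
  · rintro ⟨t, j | ⟨j, l⟩⟩
    · exact hrng _
    · exact hrng _
  · rintro w ⟨g, rfl⟩
    set cc : T × (ι ⊕ ι × ι) → (MvPolynomial {j : ι // j ≠ i} D)[X] := (fun x => match x with
      | (t, Sum.inl j) => Polynomial.C (MvPolynomial.C (β t * φ j))
      | (t, Sum.inr (j, l)) => Polynomial.C (MvPolynomial.C (β t) *
          (MvPolynomial.C (φ j) * zv D i l - MvPolynomial.C (φ l) * zv D i j))) with hcc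
    set S := Algebra.adjoin k (Set.range θ ∪ Set.range cc) with hS
    have hSN : N ∈ S := by
      refine Algebra.subset_adjoin (Or.inl ⟨⟨nrm p h c f i, nrm_mem p h c f i⟩, ?_⟩)
      rw [hθ]
    have hSR : ∀ r : R, Polynomial.C (MvPolynomial.C (algebraMap R D r)) ∈ S := by
      intro r
      refine Algebra.subset_adjoin (Or.inl ⟨algebraMap R (quotientRing f P) r, ?_⟩)
      rw [hθ]
      have : (algebraMap R (quotientRing f P) r).1 = MvPolynomial.C r := rfl
      rw [this, thet_C]
    have hSc : ∀ x, cc x ∈ S := fun x => Algebra.subset_adjoin (Or.inr ⟨x, rfl⟩)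
    have hSD : ∀ d : D, Polynomial.C (MvPolynomial.C d) ∈ S := by
      intro d
      have hd : d ∈ Algebra.adjoin R (Set.range β ∪ Set.range φ) := by
        rw [hgen]; trivial
      induction hd using Algebra.adjoin_induction with
      | mem x hx =>
        rcases hx with ⟨t, rfl⟩ | ⟨j, rfl⟩
        · have := hSc (t, Sum.inl i)
          rw [hcc] at this
          simp only [hφi, mul_one] at this
          exact this
        · have := hSc (s, Sum.inl j)
          rw [hcc] at this
          simp only [hβs, one_mul] at this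
          exact this
      | algebraMap r => exact hSR r
      | add x y _ _ hx hy => rw [map_add, map_add]; exact add_mem hx hy
      | mul x y _ _ hx hy => rw [map_mul, map_mul]; exact mul_mem hx hy
    have hSC0 : ∀ x : MvPolynomial {j : ι // j ≠ i} D, Polynomial.C x ∈ S := by
      intro x
      induction x using MvPolynomial.induction_on with
      | C d => exact hSD d
      | add x y hx hy => rw [map_add]; exact add_mem hx hy
      | mul_X x j hx =>
        rw [map_mul]
        refine mul_mem hx ?_
        have := hSc (s, Sum.inr (i, j.1))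
        rw [hcc] at this
        simp only [hβs, hφi, map_one, one_mul, zv_self, mul_zero, sub_zero] at this
        rw [zv, dif_neg j.2] at this
        exact this
    change ev g ∈ S
    induction g using Polynomial.induction_on' with
    | add x y hx hy => rw [map_add]; exact add_mem hx hy
    | monomial n x =>
      rw [← Polynomial.C_mul_X_pow_eq_monomial, map_mul, map_pow, hev, Polynomial.aeval_X,
        Polynomial.aeval_C]
      exact mul_mem (hSC0 x) (pow_mem hSN n)

end Chart

section Rad

variable {R : Type} [CommRing R] {ι T : Type}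

lemma mnr_eq (p h : ℕ) [hp : Fact p.Prime] [CharP R p] (c : ℕ → R) (f : ι → R) (b : R)
    (j l : ι) :
    (MvPolynomial.C b * mnr f j l) ^ (p ^ h) =
      (MvPolynomial.C (b * f j)) ^ (p ^ h) * nrm p h c f l -
      (MvPolynomial.C (b * f l)) ^ (p ^ h) * nrm p h c f j -
      ∑ e ∈ Finset.range h, MvPolynomial.C (c e) *
        (MvPolynomial.C (b * f j) * MvPolynomial.C (f l)) ^ (p ^ h - p ^ e) *
          (MvPolynomial.C b * mnr f j l) ^ (p ^ e) := by
  have hp1 := hp.out.one_lt
  have e1 : homPoly p h (fun e => (MvPolynomial.C (c e) : MvPolynomial ι R))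
      (MvPolynomial.C b * (MvPolynomial.C (f j) * MvPolynomial.C (f l)))
      (MvPolynomial.C b * mnr f j l) = MvPolynomial.C b ^ (p ^ h) *
      (MvPolynomial.C (f j) ^ (p ^ h) * nrm p h c f l -
        MvPolynomial.C (f l) ^ (p ^ h) * nrm p h c f j) := by
    rw [homPoly_mul p h hp1, mnr, homPoly_sub, homPoly_mul p h hp1,
      mul_comm (MvPolynomial.C (f j)) (MvPolynomial.C (f l)), homPoly_mul p h hp1]
    rfl
  rw [homPoly] at e1
  have e2 : ∀ e : ℕ, MvPolynomial.C (c e) *
        (MvPolynomial.C (b * f j) * MvPolynomial.C (f l)) ^ (p ^ h - p ^ e) *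
          (MvPolynomial.C b * mnr f j l) ^ (p ^ e) = MvPolynomial.C (c e) *
      (MvPolynomial.C b * (MvPolynomial.C (f j) * MvPolynomial.C (f l))) ^ (p ^ h - p ^ e) *
      (MvPolynomial.C b * mnr f j l) ^ (p ^ e) := by
    intro e
    rw [map_mul, mul_assoc (MvPolynomial.C b)]
  simp only [e2]
  rw [map_mul, map_mul, mul_pow, mul_pow, mul_pow]
  rw [mul_pow] at e1
  linear_combination e1

lemma aFam_rad (p h : ℕ) [hp : Fact p.Prime] [CharP R p] (c : ℕ → R) (f : ι → R) (b : T → R)
    (x : T × (ι ⊕ ι × ι)) : ∃ N, 0 < N ∧ aFam f b (addPoly p h c) x ^ N ∈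
      Ideal.span (aFam f b (addPoly p h c) '' {x | ∃ t j, x = (t, Sum.inl j)}) *
        (Ideal.span (Set.range (aFam f b (addPoly p h c)))) ^ (N - 1) := by
  obtain ⟨t, j | ⟨j, l⟩⟩ := x
  · refine ⟨1, one_pos, ?_⟩
    rw [pow_one, Nat.sub_self, pow_zero, Ideal.one_eq_top, Ideal.mul_top]
    exact Ideal.subset_span ⟨_, ⟨t, j, rfl⟩, rfl⟩
  · have hq : 0 < p ^ h := pow_pos hp.out.pos h
    refine ⟨p ^ h, hq, ?_⟩
    set P := addPoly p h c with hP
    set I := Ideal.span (Set.range (aFam f b P)) with hI
    set J := Ideal.span (aFam f b P '' {x | ∃ t j, x = (t, Sum.inl j)}) with hJ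
    have key : aFam f b P (t, Sum.inr (j, l)) ^ (p ^ h) =
        aFam f b P (t, Sum.inl j) ^ (p ^ h) * ⟨nrm p h c f l, nrm_mem p h c f l⟩ -
        aFam f b P (t, Sum.inl l) ^ (p ^ h) * ⟨nrm p h c f j, nrm_mem p h c f j⟩ -
        ∑ e ∈ Finset.range h, algebraMap R (quotientRing f P) (c e) *
          (aFam f b P (t, Sum.inl j) * algebraMap R (quotientRing f P) (f l)) ^ (p ^ h - p ^ e) *
          aFam f b P (t, Sum.inr (j, l)) ^ (p ^ e) := by
      have hinj : Function.Injective (quotientRing f P).val := Subtype.val_injective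
      apply hinj
      rw [map_sub, map_sub, map_sum, map_mul, map_mul, map_pow, map_pow, map_pow]
      simp only [map_mul, map_pow]
      exact mnr_eq p h c f (b t) j l
    have hmem : ∀ j, aFam f b P (t, Sum.inl j) ^ (p ^ h) ∈ J * I ^ (p ^ h - 1) := by
      intro j
      have : aFam f b P (t, Sum.inl j) ^ (p ^ h) = aFam f b P (t, Sum.inl j) *
          aFam f b P (t, Sum.inl j) ^ (p ^ h - 1) := by
        rw [← pow_succ', Nat.sub_add_cancel hq]
      rw [this]
      exact Ideal.mul_mem_mul (Ideal.subset_span (Set.mem_image_of_mem _ ⟨t, j, rfl⟩))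
        (Ideal.pow_mem_pow (Ideal.subset_span (Set.mem_range_self _)) _)
    rw [key]
    refine sub_mem (sub_mem (Ideal.mul_mem_right _ _ (hmem j)) (Ideal.mul_mem_right _ _ (hmem l)))
      (sum_mem ?_)
    intro e he
    have h1 : p ^ e < p ^ h := Nat.pow_lt_pow_right hp.out.one_lt (Finset.mem_range.mp he)
    have h2 : p ^ h - p ^ e = (p ^ h - p ^ e - 1) + 1 := by omega
    have h3 : algebraMap R (quotientRing f P) (c e) *
          (aFam f b P (t, Sum.inl j) * algebraMap R (quotientRing f P) (f l)) ^ (p ^ h - p ^ e) *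
          aFam f b P (t, Sum.inr (j, l)) ^ (p ^ e) =
        algebraMap R (quotientRing f P) (c e) * algebraMap R (quotientRing f P) (f l) ^ (p ^ h - p ^ e) *
          (aFam f b P (t, Sum.inl j) * (aFam f b P (t, Sum.inl j) ^ (p ^ h - p ^ e - 1) *
            aFam f b P (t, Sum.inr (j, l)) ^ (p ^ e))) := by
      rw [mul_pow, ← mul_assoc (aFam f b P (t, Sum.inl j)), ← pow_succ', ← h2]
      ring
    rw [h3]
    refine Ideal.mul_mem_left _ _ (Ideal.mul_mem_mul (Ideal.subset_span (Set.mem_image_of_mem _ ⟨t, j, rfl⟩)) ?_)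
    have h4 : p ^ h - 1 = (p ^ h - p ^ e - 1) + p ^ e := by omega
    rw [h4, pow_add]
    exact Ideal.mul_mem_mul (Ideal.pow_mem_pow (Ideal.subset_span (Set.mem_range_self _)) _)
      (Ideal.pow_mem_pow (Ideal.subset_span (Set.mem_range_self _)) _)

end Rad

section FT

variable {k R : Type} [Field k] [CommRing R] [Algebra k R] {ι : Type} [Finite ι]

lemma finiteType_quotientRing [Algebra.FiniteType k R] (p h : ℕ) [hp : Fact p.Prime] [CharP R p]
    (c : ℕ → R) (f : ι → R) : Algebra.FiniteType k (quotientRing f (addPoly p h c)) := by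
  set P := addPoly p h c with hP
  have h1 : Algebra.FiniteType k (MvPolynomial ι R) :=
    Algebra.FiniteType.trans (S := R) inferInstance inferInstance
  have h2 : Algebra.IsIntegral (quotientRing f P) (MvPolynomial ι R) := by
    constructor
    intro g
    have hC : ∀ r : R, IsIntegral (quotientRing f P) (MvPolynomial.C r : MvPolynomial ι R) := by
      intro r
      exact isIntegral_algebraMap (R := quotientRing f P) (A := MvPolynomial ι R)
        (x := algebraMap R (quotientRing f P) r)
    induction g using MvPolynomial.induction_on with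
    | C r => exact hC r
    | add x y hx hy => exact hx.add hy
    | mul_X x j hx =>
      refine hx.mul ?_
      nontriviality R
      refine ⟨homPoly p h (fun e => Polynomial.C (algebraMap R (quotientRing f P) (c e)))
        (Polynomial.C (algebraMap R (quotientRing f P) (f j))) Polynomial.X -
          Polynomial.C ⟨nrm p h c f j, nrm_mem p h c f j⟩, ?_, ?_⟩
      · have hm := homPoly_monic p h hp.out.one_lt
          (fun e => algebraMap R (quotientRing f P) (c e)) (algebraMap R (quotientRing f P) (f j))
        refine hm.sub_of_left ?_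
        refine lt_of_le_of_lt Polynomial.degree_C_le ?_
        rw [Polynomial.degree_eq_natDegree hm.ne_zero, homPoly_natDegree p h hp.out.one_lt]
        exact_mod_cast pow_pos hp.out.pos h
      · rw [Polynomial.eval₂_sub, Polynomial.eval₂_C, sub_eq_zero]
        have := homPoly_map p h (Polynomial.eval₂RingHom
          (algebraMap (quotientRing f P) (MvPolynomial ι R)) (MvPolynomial.X j))
          (fun e => Polynomial.C (algebraMap R (quotientRing f P) (c e)))
          (Polynomial.C (algebraMap R (quotientRing f P) (f j))) Polynomial.X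
        simp only [Polynomial.coe_eval₂RingHom, Polynomial.eval₂_C, Polynomial.eval₂_X] at this
        rw [this]
        rfl
  have h3 : Algebra.FiniteType (quotientRing f P) (MvPolynomial ι R) :=
    Algebra.FiniteType.of_restrictScalars_finiteType k _ _
  have h4 : Module.Finite (quotientRing f P) (MvPolynomial ι R) := Algebra.IsIntegral.finite
  constructor
  exact fg_of_fg_of_fg k (quotientRing f P) (MvPolynomial ι R) h1.1 h4.1 Subtype.val_injective

end FT

section Main

theorem resolution_translation {k R : Type} [Field k] [CommRing R] [IsDomain R] [Algebra k R]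
    [Algebra.FiniteType k R] (p h : ℕ) [hp : Fact p.Prime] [CharP R p]
    {ι T : Type} [Finite ι] [Finite T] (c : ℕ → R) (f : ι → R) (b : T → R)
    (i₀ : ι) (hf : f i₀ ≠ 0) (s₀ : T) (hb : b s₀ ≠ 0)
    (hsm : ∀ s i, b s ≠ 0 → f i ≠ 0 → Algebra.Smooth k (chartRing f b s i)) :
    Algebra.FiniteType k (quotientRing f (addPoly p h c)) ∧
    ∃ (Y : Scheme.{0}) (π : Y ⟶ Spec (CommRingCat.of (quotientRing f (addPoly p h c)))),
        AlgebraicGeometry.IsIntegral Y ∧ AlgebraicGeometry.IsProper π ∧
        AlgebraicGeometry.Smooth (π ≫ Spec.map (CommRingCat.ofHom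
          (algebraMap k (quotientRing f (addPoly p h c))))) ∧
        ∃ U : (Spec (CommRingCat.of (quotientRing f (addPoly p h c)))).Opens,
          Dense (U : Set (Spec (CommRingCat.of (quotientRing f (addPoly p h c))))) ∧
          IsIso (π ∣_ U) := by
  classical
  refine ⟨finiteType_quotientRing p h c f, ?_⟩
  refine resolution_of_charts (aFam f b (addPoly p h c)) {x | ∃ t j, x = (t, Sum.inl j)}
    (s₀, Sum.inl i₀) ?_ (aFam_rad p h c f b) ?_
  · intro h0
    have h1 : MvPolynomial.C (b s₀ * f i₀) = (0 : MvPolynomial ι R) := congrArg Subtype.val h0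
    rw [map_eq_zero_iff _ (MvPolynomial.C_injective _ _)] at h1
    exact (mul_ne_zero hb hf) h1
  · rintro _ ⟨s, i, rfl⟩ h0
    have h1 : b s * f i ≠ 0 := by
      intro h2
      apply h0
      apply Subtype.ext
      change MvPolynomial.C (b s * f i) = (0 : MvPolynomial ι R)
      rw [h2, map_zero]
    have hbs : b s ≠ 0 := left_ne_zero_of_mul h1
    have hfi : f i ≠ 0 := right_ne_zero_of_mul h1
    have hbs' : algebraMap R (FractionRing R) (b s) ≠ 0 := by
      rw [Ne, map_eq_zero_iff _ (IsFractionRing.injective R (FractionRing R))]; exact hbs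
    have hfi' : algebraMap R (FractionRing R) (f i) ≠ 0 := by
      rw [Ne, map_eq_zero_iff _ (IsFractionRing.injective R (FractionRing R))]; exact hfi
    have := hsm s i hbs hfi
    set D := chartRing f b s i with hD
    have hRD : Function.Injective (algebraMap R D) := by
      intro x y hxy
      exact IsFractionRing.injective R (FractionRing R) (congrArg Subtype.val hxy)
    refine trans_chart (D := D) p h hRD c i
      (fun j => ⟨algebraMap R (FractionRing R) (f j) / algebraMap R (FractionRing R) (f i),
        Algebra.subset_adjoin (Or.inr ⟨j, rfl⟩)⟩) f b s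
      (fun t => ⟨algebraMap R (FractionRing R) (b t) / algebraMap R (FractionRing R) (b s),
        Algebra.subset_adjoin (Or.inl ⟨t, rfl⟩)⟩) hfi hbs ?_ ?_ ?_
    · intro j
      apply Subtype.ext
      exact (div_mul_cancel₀ _ hfi').symm
    · intro t
      apply Subtype.ext
      exact (div_mul_cancel₀ _ hbs').symm
    · rw [eq_top_iff]
      rintro ⟨x, hx⟩ -
      set S : Subalgebra R D := Algebra.adjoin R
        (Set.range (fun t => (⟨algebraMap R (FractionRing R) (b t) /
          algebraMap R (FractionRing R) (b s), Algebra.subset_adjoin (Or.inl ⟨t, rfl⟩)⟩ : D)) ∪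
        Set.range (fun j => (⟨algebraMap R (FractionRing R) (f j) /
          algebraMap R (FractionRing R) (f i), Algebra.subset_adjoin (Or.inr ⟨j, rfl⟩)⟩ : D)))
        with hS
      have h2 : D ≤ S.map D.val := by
        refine (Algebra.adjoin_le_iff (R := R) (A := FractionRing R)).mpr ?_
        rintro y (⟨t, rfl⟩ | ⟨j, rfl⟩)
        · exact ⟨_, Algebra.subset_adjoin (Or.inl ⟨t, rfl⟩), rfl⟩
        · exact ⟨_, Algebra.subset_adjoin (Or.inr ⟨j, rfl⟩), rfl⟩
      obtain ⟨y, hy, hyx⟩ := h2 hx
      have : y = ⟨x, hx⟩ := Subtype.ext hyx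
      rw [← this]
      exact hy

end Main

end Pool.Agent.H15Res
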